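import Pool.Agent.Helper90.SH.FSDefs

/-!
# MP_506470_co, module FSc : the number of good permutations of a good list
-/

set_option autoImplicit false

namespace SetHom
namespace FS

variable {V : Type*} {G : SimpleGraph V} {K : List V → Prop}

/-- Two different orderings of the same elements: two consecutive elements of the first stand in
the opposite order in the second. -/
theorem fsc_swap {u u' : List V} (hu' : u'.Nodup) (hp : u'.Perm u) (hne : u ≠ u') :
    ∃ p x y q, u = p ++ x :: y :: q ∧ [y, x].Sublist u' := by
  classical
  by_contra hcon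
  apply hne
  let R : V → V → Prop := fun x y => u'.idxOf x < u'.idxOf y
  haveI : Trans R R R := ⟨fun h1 h2 => lt_trans h1 h2⟩
  have hu : u.Nodup := hp.nodup_iff.1 hu'
  have h1 : u.Pairwise R := by
    rw [← List.isChain_iff_pairwise, List.isChain_iff_forall_rel_of_append_cons_cons]
    intro x y p q he
    by_contra hlt
    have hx : x ∈ u' := hp.symm.subset (by rw [he]; simp)
    have hy : y ∈ u' := hp.symm.subset (by rw [he]; simp)
    have hxy : x ≠ y := by
      rintro rfl
      rw [he, List.nodup_append] at hu
      simp at hu
    have hlt' : u'.idxOf y < u'.idxOf x := by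
      rcases lt_or_eq_of_le (not_lt.1 hlt) with h | h
      · exact h
      · exfalso
        apply hxy
        have e1 := List.getElem_idxOf (List.idxOf_lt_length_of_mem hx)
        have e2 := List.getElem_idxOf (List.idxOf_lt_length_of_mem hy)
        rw [← e1, ← e2]
        simp only [h]
    apply hcon
    refine ⟨p, x, y, q, he, ?_⟩
    have hj : u'.idxOf x < u'.length := List.idxOf_lt_length_of_mem hx
    have e3 : u' = u'.take (u'.idxOf x) ++ u'.drop (u'.idxOf x) := (List.take_append_drop _ _).symm
    have e4 : u'.drop (u'.idxOf x) = x :: u'.drop (u'.idxOf x + 1) := by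
      rw [List.drop_eq_getElem_cons hj, List.getElem_idxOf]
    have hy2 : y ∈ u'.take (u'.idxOf x) := by
      rw [List.mem_take_iff_getElem]
      exact ⟨u'.idxOf y, by rw [lt_min_iff]; exact ⟨hlt', List.idxOf_lt_length_of_mem hy⟩,
        List.getElem_idxOf _⟩
    rw [e3, e4]
    exact (List.singleton_sublist.2 hy2).append (List.singleton_sublist.2 (by simp))
  have h2 : u'.Pairwise R := by
    rw [List.pairwise_iff_getElem]
    intro i j hi hj hij
    show u'.idxOf u'[i] < u'.idxOf u'[j]
    rw [hu'.idxOf_getElem, hu'.idxOf_getElem]; exact hij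
  exact hp.symm.eq_of_pairwise (fun a b _ _ h3 h4 => absurd h3 (lt_asymm h4)) h1 h2

/-- Two good orderings with the same first `t` and last `t` entries are equal. -/
theorem fsc_eq (h : GdL G K) {t : ℕ} (ht : ¬ TT K t) {a u u' b : List V} (ha : a.length = t)
    (hb : b.length = t) (h1 : K (a ++ (u ++ b))) (h2 : K (a ++ (u' ++ b)))
    (hp : u'.Perm u) : u = u' := by
  by_contra hne
  have hn := h.nodup _ h2
  rw [List.nodup_append] at hn
  have hn' := hn.2.1
  rw [List.nodup_append] at hn'
  obtain ⟨p, x, y, q, he, hs⟩ := fsc_swap hn'.1 hp hne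
  apply ht
  refine ⟨a, x, y, b, ha, hb, ?_, ?_⟩
  · refine h.sub _ _ h1 ?_
    have e1 : (x :: y :: b : List V) = [x, y] ++ b := rfl
    rw [e1]
    refine (List.Sublist.refl a).append (List.Sublist.append ?_ (List.Sublist.refl b))
    rw [he]
    have e2 : (x :: y :: q : List V) = [x, y] ++ q := rfl
    rw [e2]
    exact (List.sublist_append_left _ _).trans (List.sublist_append_right _ _)
  · refine h.sub _ _ h2 ?_
    have e1 : (y :: x :: b : List V) = [y, x] ++ b := rfl
    rw [e1]
    exact (List.Sublist.refl a).append (hs.append (List.Sublist.refl b))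

/-- module FSc -/
theorem card_good_perm (h : GdL G K) {t : ℕ} (ht : ¬ TT K t) (l : List V) (hl : K l)
    (hlen : 2 * t ≤ l.length) :
    {l' | K l' ∧ l'.Perm l}.Finite ∧ {l' | K l' ∧ l'.Perm l}.ncard ≤ l.length ^ (2 * t) := by
  classical
  let F : List V → (Fin (2 * t) → Option V) := fun l' i =>
    if i.1 < t then l'[i.1]? else l'[l.length - 2 * t + i.1]?
  let T : Finset (Fin (2 * t) → Option V) := Fintype.piFinset fun _ => l.toFinset.image some
  have hTc : T.card ≤ l.length ^ (2 * t) := by
    rw [Fintype.card_piFinset]
    simp only [Finset.prod_const, Finset.card_univ, Fintype.card_fin]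
    exact Nat.pow_le_pow_left (Finset.card_image_le.trans (List.toFinset_card_le l)) _
  have hmaps : ∀ l' ∈ {l' | K l' ∧ l'.Perm l}, F l' ∈ (T : Set (Fin (2 * t) → Option V)) := by
    rintro l' ⟨h1, h2⟩
    rw [Finset.mem_coe, Fintype.mem_piFinset]
    intro i
    have hlen' : l'.length = l.length := h2.length_eq
    have hi := i.2
    have key : ∀ j, j < l'.length → l'[j]? ∈ l.toFinset.image some := by
      intro j hj
      rw [List.getElem?_eq_getElem hj, Finset.mem_image]
      exact ⟨l'[j], by rw [List.mem_toFinset]; exact h2.subset (List.getElem_mem hj), rfl⟩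
    show (if i.1 < t then l'[i.1]? else l'[l.length - 2 * t + i.1]?) ∈ _
    split_ifs with hit
    · exact key _ (by omega)
    · exact key _ (by omega)
  have hinj : Set.InjOn F {l' | K l' ∧ l'.Perm l} := by
    rintro l₁ ⟨h1, h1'⟩ l₂ ⟨h2, h2'⟩ he
    have n1 : l₁.length = l.length := h1'.length_eq
    have n2 : l₂.length = l.length := h2'.length_eq
    have hF : ∀ i : ℕ, (hi : i < 2 * t) → (if i < t then l₁[i]? else l₁[l.length - 2 * t + i]?)
        = if i < t then l₂[i]? else l₂[l.length - 2 * t + i]? := fun i hi =>
      congrFun he ⟨i, hi⟩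
    -- the first `t` entries
    have ea : l₁.take t = l₂.take t := by
      apply List.ext_getElem?
      intro i
      rw [List.getElem?_take, List.getElem?_take]
      split_ifs with hi
      · have := hF i (by omega)
        simpa [hi] using this
      · rfl
    -- the last `t` entries
    have eb : l₁.drop (l.length - t) = l₂.drop (l.length - t) := by
      apply List.ext_getElem?
      intro i
      rw [List.getElem?_drop, List.getElem?_drop]
      by_cases hi : i < t
      · have := hF (t + i) (by omega)
        rw [if_neg (by omega), if_neg (by omega)] at this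
        have e : l.length - 2 * t + (t + i) = l.length - t + i := by omega
        rwa [e] at this
      · rw [List.getElem?_eq_none (by omega), List.getElem?_eq_none (by omega)]
    have split : ∀ m : List V, m.length = l.length →
        m = m.take t ++ ((m.drop t).take (l.length - 2 * t) ++ m.drop (l.length - t)) := by
      intro m hm
      have e1 : m.drop (l.length - t) = (m.drop t).drop (l.length - 2 * t) := by
        rw [List.drop_drop]
        congr 1
        omega
      rw [e1, List.take_append_drop, List.take_append_drop]
    have s1 := split l₁ n1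
    have s2 := split l₂ n2
    set u := (l₁.drop t).take (l.length - 2 * t) with hu
    set u' := (l₂.drop t).take (l.length - 2 * t) with hu'
    rw [← ea, ← eb] at s2
    have hp : l₂.Perm l₁ := h2'.trans h1'.symm
    have hp' : u'.Perm u := by
      rw [s1, s2] at hp
      rw [List.perm_append_left_iff, List.perm_append_right_iff] at hp
      exact hp
    have k1 : K (l₁.take t ++ (u ++ l₁.drop (l.length - t))) := s1 ▸ h1
    have k2 : K (l₁.take t ++ (u' ++ l₁.drop (l.length - t))) := s2 ▸ h2
    have := fsc_eq h ht (by rw [List.length_take]; omega) (by rw [List.length_drop]; omega)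
      k1 k2 hp'
    rw [s1, s2, this]
  refine ⟨Set.Finite.of_injOn hmaps hinj T.finite_toSet, ?_⟩
  have := Set.ncard_le_ncard_of_injOn F hmaps hinj T.finite_toSet
  rw [Set.ncard_coe_finset] at this
  exact this.trans hTc

end FS
end SetHom
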