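import Pool.Agent.Helper95.SH.Cell

/-!
# Project RC, SHARP, cell engine (O3): the forms `LQ`, `SQ`, `S1Q` as sums of products of real functionals

`K` odd: the window of `s`; `L = 2 H`: the window of `p`, `r`.
`LQ_rows`: `LQ N F (s - zs)` = the sum over the odd frequencies `2 c - K`, `c ≤ K`, of `Re zA Re zB + Im zA Im zB`.
`BQ_rows`: `Re ∑ (g0 u + g2 u(·-2) + conj g2 u(·+2)) conj u` for a hermitian `u` = the sum over `2 c`, `c ≤ H`.
-/

set_option autoImplicit false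

open MeasureTheory Set Filter Topology

namespace Helper55.SH

open Helper49.LT hiding sg
open Helper95.RC Helper95.SH Helper49.Sharp
open Helper56.RC (fc)

/-- sums over one parity -/
theorem par_sum {A : Type*} [AddCommMonoid A] (K : ℕ) (g : ℤ → A)
    (hg : ∀ n : ℤ, ¬ Even (n + K) → g n = 0) :
    ∑ n ∈ Finset.Icc (-(K : ℤ)) K, g n = ∑ c ∈ Finset.range (K + 1), g (2 * c - K) := by
  symm
  rw [← Finset.sum_image (f := g) (g := fun c : ℕ => (2 * (c : ℤ) - K))]
  · apply Finset.sum_subset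
    · intro n hn
      rw [Finset.mem_image] at hn
      obtain ⟨c, hc, rfl⟩ := hn
      rw [Finset.mem_range] at hc
      rw [Finset.mem_Icc]
      omega
    · intro n hn hn'
      apply hg
      intro he
      apply hn'
      obtain ⟨a, ha⟩ := he
      rw [Finset.mem_Icc] at hn
      rw [Finset.mem_image]
      refine ⟨a.toNat, ?_, ?_⟩
      · rw [Finset.mem_range]; omega
      · omega
  · intro a _ b _ hab
    have hab' : (2 * (a : ℤ) - K) = 2 * (b : ℤ) - K := hab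
    omega

/-! ### `LQ` -/

/-- `LQ` is linear in the weight -/
theorem LQ_lin (M : ℕ) (a b : ℝ) (F G u : ℤ → ℂ) :
    LQ M (fun n => (a : ℂ) * F n + (b : ℂ) * G n) u = a * LQ M F u + b * LQ M G u := by
  unfold LQ
  rw [← Complex.re_ofReal_mul, ← Complex.re_ofReal_mul, ← Complex.add_re, Finset.mul_sum, Finset.mul_sum,
    ← Finset.sum_add_distrib]
  congr 1
  refine Finset.sum_congr rfl fun m _ => ?_
  rw [Finset.mul_sum, Finset.mul_sum, ← Finset.sum_add_distrib]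
  refine Finset.sum_congr rfl fun k _ => ?_
  ring

theorem sum_win {K N : ℕ} (h : K ≤ N) {A : Type*} [AddCommMonoid A] (g : ℤ → A)
    (hg : ∀ n : ℤ, n ∉ Finset.Icc (-(K : ℤ)) K → g n = 0) :
    ∑ n ∈ Finset.Icc (-(N : ℤ)) N, g n = ∑ n ∈ Finset.Icc (-(K : ℤ)) K, g n := by
  symm
  apply Finset.sum_subset
  · intro m hm
    rw [Finset.mem_Icc] at hm ⊢
    omega
  · intro m _ hm
    exact hg m hm

/-- the functionals of the rows -/
noncomputable def zA (K : ℕ) (F u : ℤ → ℂ) (c : ℕ) : ℂ :=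
  ∑ d ∈ Finset.range (K + 1), F (2 * ((c : ℤ) - d)) * u (2 * d - K)
noncomputable def zB (K : ℕ) (u : ℤ → ℂ) (c : ℕ) : ℂ :=
  u (2 * c - K) + 1 / 2 * (starRingEnd ℂ) (u (K - 2 * c))

theorem re_mul_conj (x y : ℂ) : (x * (starRingEnd ℂ) y).re = x.re * y.re + x.im * y.im := by
  rw [Complex.mul_re, Complex.conj_re, Complex.conj_im]
  ring

theorem LQ_rows {K N : ℕ} (hK : ¬ Even K) (h : K ≤ N) (F : ℤ → ℂ) {u : ℤ → ℂ} (hu : Sup K u)
    (he : ∀ n, Even n → u n = 0) :
    LQ N F u = ∑ c ∈ Finset.range (K + 1),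
      ((zA K F u c).re * (zB K u c).re + (zA K F u c).im * (zB K u c).im) := by
  have hpar : ∀ n : ℤ, ¬ Even (n + K) → Even n := by
    intro n hn
    rw [Int.even_add] at hn
    have hK' : ¬ Even (K : ℤ) := by rwa [Int.even_coe_nat]
    tauto
  have hu' : ∀ n : ℤ, n ∉ Finset.Icc (-(K : ℤ)) K → u (-n) = 0 := by
    intro n hn
    apply hu
    rw [Finset.mem_Icc] at hn ⊢
    omega
  unfold LQ
  rw [sum_win h]
  · have e1 : ∀ m ∈ Finset.Icc (-(K : ℤ)) K, ∑ k ∈ Finset.Icc (-(N : ℤ)) N,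
        F (m - k) * u k * ((starRingEnd ℂ) (u m) + 1 / 2 * u (-m)) =
        (∑ d ∈ Finset.range (K + 1), F (m - (2 * d - K)) * u (2 * d - K)) *
          ((starRingEnd ℂ) (u m) + 1 / 2 * u (-m)) := by
      intro m _
      rw [← Finset.sum_mul, sum_win h _ (fun n hn => by rw [hu n hn, mul_zero]),
        par_sum K _ (fun n hn => by rw [he n (hpar n hn), mul_zero])]
    rw [Finset.sum_congr rfl e1, par_sum K, Complex.re_sum]
    · refine Finset.sum_congr rfl fun c _ => ?_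
      rw [← re_mul_conj]
      congr 1
      have e2 : (starRingEnd ℂ) (zB K u c) =
          (starRingEnd ℂ) (u (2 * c - K)) + 1 / 2 * u (-(2 * c - K)) := by
        unfold zB
        rw [map_add, map_mul, Complex.conj_conj, map_div₀, map_one, Complex.conj_ofNat, neg_sub]
      rw [e2]
      congr 1
      unfold zA
      refine Finset.sum_congr rfl fun d _ => ?_
      congr 2
      ring
    · intro n hn
      rw [he n (hpar n hn), he (-n) (by rw [even_neg]; exact hpar n hn), map_zero, mul_zero, add_zero, mul_zero]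
  · intro n hn
    apply Finset.sum_eq_zero
    intro k _
    rw [hu n hn, hu' n hn, map_zero, mul_zero, add_zero, mul_zero]

/-! ### real functions -/

/-- the convolution with `g0 + g2 ee(2t) + conj g2 ee(-2t)` -/
noncomputable def cv (g0 : ℝ) (g2 : ℂ) (u : ℤ → ℂ) (n : ℤ) : ℂ :=
  (g0 : ℂ) * u n + g2 * u (n - 2) + (starRingEnd ℂ) g2 * u (n + 2)

/-- the quadratic form of `(g0 + 2 Re (g2 ee(2t))) x²` -/
noncomputable def BQ (M : ℕ) (g0 : ℝ) (g2 : ℂ) (u : ℤ → ℂ) : ℝ :=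
  (∑ m ∈ Finset.Icc (-(M : ℤ)) M, cv g0 g2 u m * (starRingEnd ℂ) (u m)).re

theorem SQ_BQ (M : ℕ) (η : ℂ) (u : ℤ → ℂ) : SQ M η u = BQ M 1 η u := by
  unfold SQ BQ
  congr 1
  refine Finset.sum_congr rfl fun m _ => ?_
  unfold wm cv
  push_cast
  ring

theorem S1Q_BQ (M : ℕ) (u : ℤ → ℂ) : S1Q M u = BQ M 1 0 u := by
  unfold S1Q BQ
  rw [Complex.re_sum]
  refine Finset.sum_congr rfl fun m _ => ?_
  unfold cv
  have : ((1 : ℝ) : ℂ) * u m + 0 * u (m - 2) + (starRingEnd ℂ) 0 * u (m + 2) = u m := by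
    rw [map_zero]; push_cast; ring
  rw [this, Complex.mul_conj, Complex.normSq_eq_norm_sq, Complex.ofReal_re]

theorem BQ_lin (M : ℕ) (a b g0 h0 : ℝ) (g2 h2 : ℂ) (u : ℤ → ℂ) :
    BQ M (a * g0 + b * h0) ((a : ℂ) * g2 + (b : ℂ) * h2) u = a * BQ M g0 g2 u + b * BQ M h0 h2 u := by
  unfold BQ
  rw [← Complex.re_ofReal_mul, ← Complex.re_ofReal_mul, ← Complex.add_re, Finset.mul_sum, Finset.mul_sum,
    ← Finset.sum_add_distrib]
  congr 1
  refine Finset.sum_congr rfl fun m _ => ?_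
  unfold cv
  rw [map_add, map_mul, map_mul, Complex.conj_ofReal, Complex.conj_ofReal]
  push_cast
  ring

theorem BQ_win {K N : ℕ} (h : K ≤ N) (g0 : ℝ) (g2 : ℂ) {u : ℤ → ℂ} (hu : Sup K u) :
    BQ N g0 g2 u = BQ K g0 g2 u := by
  unfold BQ
  rw [sum_win h _ (fun n hn => by rw [hu n hn, map_zero, mul_zero])]

theorem cv_neg (g0 : ℝ) (g2 : ℂ) {u : ℤ → ℂ} (hh : ∀ n, u (-n) = (starRingEnd ℂ) (u n)) (n : ℤ) :
    cv g0 g2 u (-n) = (starRingEnd ℂ) (cv g0 g2 u n) := by
  unfold cv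
  have e1 : -n - 2 = -(n + 2) := by ring
  have e2 : -n + 2 = -(n - 2) := by ring
  rw [e1, e2, hh, hh, hh]
  simp only [map_add, map_mul, Complex.conj_conj, Complex.conj_ofReal]
  ring

/-- the weight of a row -/
def wt2 (c : ℕ) : ℝ := if c = 0 then 1 else 2

theorem sum_sym (H : ℕ) (G : ℤ → ℝ) (hG : ∀ n, G (-n) = G n) (ho : ∀ n, ¬ Even n → G n = 0) :
    ∑ m ∈ Finset.Icc (-((2 * H : ℕ) : ℤ)) ((2 * H : ℕ) : ℤ), G m =
      ∑ c ∈ Finset.range (H + 1), wt2 c * G (2 * c) := by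
  rw [par_sum (2 * H) G]
  · have e : 2 * H + 1 = H + (H + 1) := by ring
    rw [e, Finset.sum_range_add]
    have e1 : ∀ c ∈ Finset.range (H + 1), G (2 * ((H + c : ℕ) : ℤ) - ((2 * H : ℕ) : ℤ)) = G (2 * c) := by
      intro c _
      congr 1
      push_cast
      ring
    rw [Finset.sum_congr rfl e1, Finset.sum_range_succ' (fun c : ℕ => wt2 c * G (2 * c)),
      Finset.sum_range_succ' (fun c : ℕ => G (2 * c))]
    have e2 : ∑ x ∈ Finset.range H, G (2 * (x : ℤ) - ((2 * H : ℕ) : ℤ)) =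
        ∑ x ∈ Finset.range H, G (2 * ((x + 1 : ℕ) : ℤ)) := by
      rw [← Finset.sum_range_reflect]
      refine Finset.sum_congr rfl fun c hc => ?_
      rw [Finset.mem_range] at hc
      rw [← hG]
      congr 1
      omega
    rw [e2]
    have e3 : ∀ x ∈ Finset.range H, wt2 (x + 1) * G (2 * ((x + 1 : ℕ) : ℤ)) =
        2 * G (2 * ((x + 1 : ℕ) : ℤ)) := by
      intro x _
      unfold wt2
      rw [if_neg (by omega)]
    rw [Finset.sum_congr rfl e3, ← Finset.mul_sum]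
    unfold wt2
    rw [if_pos rfl]
    ring
  · intro n hn
    apply ho
    intro h
    apply hn
    rw [Int.even_add]
    have : Even ((2 * H : ℕ) : ℤ) := ⟨H, by push_cast; ring⟩
    tauto

/-- the rows of a hermitian array with even frequencies -/
theorem BQ_rows {H N : ℕ} (h : 2 * H ≤ N) (g0 : ℝ) (g2 : ℂ) {u : ℤ → ℂ} (hu : Sup (2 * H) u)
    (hh : ∀ n, u (-n) = (starRingEnd ℂ) (u n)) (ho : ∀ n, ¬ Even n → u n = 0) :
    BQ N g0 g2 u = ∑ c ∈ Finset.range (H + 1),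
      ((cv g0 g2 u (2 * c)).re * (wt2 c * (u (2 * c)).re) + (cv g0 g2 u (2 * c)).im * (wt2 c * (u (2 * c)).im)) := by
  rw [BQ_win h g0 g2 hu]
  unfold BQ
  rw [Complex.re_sum, sum_sym H (fun m => (cv g0 g2 u m * (starRingEnd ℂ) (u m)).re)]
  · refine Finset.sum_congr rfl fun c _ => ?_
    rw [re_mul_conj]
    ring
  · intro n
    show (cv g0 g2 u (-n) * (starRingEnd ℂ) (u (-n))).re = _
    rw [cv_neg g0 g2 hh, hh, ← map_mul, Complex.conj_re]
  · intro n hn
    show (cv g0 g2 u n * (starRingEnd ℂ) (u n)).re = 0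
    rw [ho n hn, map_zero, mul_zero, Complex.zero_re]

end Helper55.SH
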