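import Pool.Agent.Helper55.SH.LoRow

/-!
# Project RC, SHARP, cell engine (O3): blocks in packed form

`PBlk n nf b s e A B g`: the functional `g` is `∑_(k < nf) X_k Y_k` with rows `X_k`, `Y_k`, whose integer rows at the
scale `2 ^ s` are the digits `k` of the packed numbers `A i`, `B i` (error `e`).
`zBlk`, `hBlk`: the packed forms of `LQ` and `BQ`. `lo_blocks`: `(m - lam) LoA + (mu/2) Lo1A`.
-/

set_option autoImplicit false

open MeasureTheory Set Filter Topology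

namespace Helper55.SH

open Helper49.LT hiding sg
open Helper95.RC Helper95.SH Helper49.Sharp
open Helper56.RC (fc)
open Helper54.RC.Fast
open Pool.Agent.Helper64.SH (ihr)

/-- a block in packed form -/
def PBlk (n nf b s : ℕ) (e : ℝ) (A B : ℕ → ℕ) (g : (ℕ → ℝ) → ℝ) : Prop :=
  ∃ X Y : ℕ → (ℕ → ℝ) → ℝ, (∀ v, v 0 = 1 → g v = ∑ k ∈ Finset.range nf, X k v * Y k v) ∧
    (∀ k < nf, LR n (2 ^ s) (X k) (fun i => dz b k (A i)) e) ∧
    (∀ k < nf, LR n (2 ^ s) (Y k) (fun i => dz b k (B i)) e) ∧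
    (∀ i < n, A i < (2 ^ (b + 1)) ^ nf) ∧ (∀ i < n, B i < (2 ^ (b + 1)) ^ nf)

/-! ### digits -/

theorem of_pkS (b n : ℕ) : pkS b n [] = of b n := rfl

theorem dz_of (b n k : ℕ) (h : k < n) : dz b k (of b n) = 0 := by
  rw [← of_pkS, dz_pkS (fun c _ => by simp [coef]) h]
  rfl

theorem of_lt (b n : ℕ) : of b n < (2 ^ (b + 1)) ^ n := by
  rw [← of_pkS]
  exact pkS_lt (fun c _ => by simp [coef])

theorem dz_ct_lo (b n X Y k : ℕ) (hk : k < n) : dz b k (ct b n X Y) = dz b k X := by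
  unfold dz; rw [dg_ct_lo _ _ _ _ _ hk]

theorem dz_ct_hi (b n X Y k : ℕ) (hX : X < (2 ^ (b + 1)) ^ n) : dz b (n + k) (ct b n X Y) = dz b k Y := by
  unfold dz; rw [dg_ct_hi _ _ _ _ _ hX]

theorem dz_win (b k n j W : ℕ) (h : j < n) : dz b j (win b k n W) = dz b (k + j) W := by
  unfold dz; rw [dg_win _ _ _ _ _ h]

/-! ### the block of `LQ` -/

/-- the packed rows of `zA` -/
def AZ (b K tr ti ni ca i : ℕ) : ℕ :=
  bif Nat.beq i 0 then ca
  else bif Nat.blt i (bp K) then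
    bif Nat.beq (Nat.mod (Nat.pred i) 2) 0 then
      ct b (Nat.succ K) (win b (Nat.sub K (Nat.div (Nat.pred i) 2)) (Nat.succ K) tr)
        (win b (Nat.sub K (Nat.div (Nat.pred i) 2)) (Nat.succ K) ti)
    else
      ct b (Nat.succ K) (win b (Nat.sub K (Nat.div (Nat.pred i) 2)) (Nat.succ K) ni)
        (win b (Nat.sub K (Nat.div (Nat.pred i) 2)) (Nat.succ K) tr)
  else of b (Nat.mul 2 (Nat.succ K))

/-- the packed rows of `zB` -/
def BZ (b s K cb i : ℕ) : ℕ :=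
  bif Nat.beq i 0 then cb
  else bif Nat.blt i (bp K) then
    bif Nat.beq (Nat.mod (Nat.pred i) 2) 0 then
      ct b (Nat.succ K) (pkS b (Nat.succ K) [(Nat.div (Nat.pred i) 2, Int.ofNat (Nat.pow 2 (Nat.succ s))),
        (Nat.sub K (Nat.div (Nat.pred i) 2), Int.ofNat (Nat.pow 2 s))]) (of b (Nat.succ K))
    else
      ct b (Nat.succ K) (of b (Nat.succ K)) (pkS b (Nat.succ K) [(Nat.div (Nat.pred i) 2, Int.ofNat (Nat.pow 2 (Nat.succ s))),
        (Nat.sub K (Nat.div (Nat.pred i) 2), Int.neg (Int.ofNat (Nat.pow 2 s)))])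
  else of b (Nat.mul 2 (Nat.succ K))

theorem blt_iff (x y : ℕ) : Nat.blt x y = decide (x < y) := by
  by_cases h : x < y
  · rw [decide_eq_true h]
    exact Nat.ble_eq ▸ h
  · rw [decide_eq_false h]
    cases h2 : Nat.blt x y with
    | false => rfl
    | true => exact absurd (Nat.le_of_ble_eq_true h2) h

theorem AZ_eq (b K tr ti ni ca i : ℕ) : AZ b K tr ti ni ca i =
    if i = 0 then ca else if i < bp K then (if (i - 1) % 2 = 0 then
      ct b (K + 1) (win b (K - (i - 1) / 2) (K + 1) tr) (win b (K - (i - 1) / 2) (K + 1) ti)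
    else ct b (K + 1) (win b (K - (i - 1) / 2) (K + 1) ni) (win b (K - (i - 1) / 2) (K + 1) tr))
    else of b (2 * (K + 1)) := by
  unfold AZ
  rw [beq_iff, beq_iff, blt_iff]
  have s6 : Nat.mod (Nat.pred i) 2 = (i - 1) % 2 := rfl
  rw [s6]
  by_cases h0 : i = 0
  · rw [if_pos h0, decide_eq_true h0]; rfl
  rw [if_neg h0, decide_eq_false h0]
  by_cases h1 : i < bp K
  · rw [if_pos h1, decide_eq_true h1]
    by_cases h2 : (i - 1) % 2 = 0
    · rw [if_pos h2, decide_eq_true h2]; rfl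
    · rw [if_neg h2, decide_eq_false h2]; rfl
  · rw [if_neg h1, decide_eq_false h1]; rfl

theorem BZ_eq (b s K cb i : ℕ) : BZ b s K cb i =
    if i = 0 then cb else if i < bp K then (if (i - 1) % 2 = 0 then
      ct b (K + 1) (pkS b (K + 1) [((i - 1) / 2, 2 ^ (s + 1)), (K - (i - 1) / 2, 2 ^ s)]) (of b (K + 1))
    else ct b (K + 1) (of b (K + 1)) (pkS b (K + 1) [((i - 1) / 2, 2 ^ (s + 1)), (K - (i - 1) / 2, -2 ^ s)]))
    else of b (2 * (K + 1)) := by
  unfold BZ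
  rw [beq_iff, beq_iff, blt_iff]
  have s6 : Nat.mod (Nat.pred i) 2 = (i - 1) % 2 := rfl
  have s7 : (Int.ofNat (Nat.pow 2 (Nat.succ s)) : ℤ) = 2 ^ (s + 1) := by
    show ((2 ^ (s + 1) : ℕ) : ℤ) = _
    push_cast; rfl
  have s8 : (Int.ofNat (Nat.pow 2 s) : ℤ) = 2 ^ s := by
    show ((2 ^ s : ℕ) : ℤ) = _
    push_cast; rfl
  rw [s6, s7, s8]
  by_cases h0 : i = 0
  · rw [if_pos h0, decide_eq_true h0]; rfl
  rw [if_neg h0, decide_eq_false h0]
  by_cases h1 : i < bp K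
  · rw [if_pos h1, decide_eq_true h1]
    by_cases h2 : (i - 1) % 2 = 0
    · rw [if_pos h2, decide_eq_true h2]; rfl
    · rw [if_neg h2, decide_eq_false h2]; rfl
  · rw [if_neg h1, decide_eq_false h1]; rfl

section

variable {b s K L : ℕ} {F zc : ℤ → ℂ} {tr ti ni ca cb : ℕ}

/-- the conditions on the tables (`e = 1`) -/
structure ZTab (b s K : ℕ) (F zc : ℤ → ℂ) (tr ti ni ca cb : ℕ) : Prop where
  hs : s + 2 ≤ b
  hR : ∀ j : ℤ, j ∈ Finset.Icc (-(K : ℤ)) K → |2 ^ (s + 1) * (F (2 * j)).re - dz b (j + K).toNat tr| ≤ 1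
  hI : ∀ j : ℤ, j ∈ Finset.Icc (-(K : ℤ)) K → |2 ^ (s + 1) * (F (2 * j)).im - dz b (j + K).toNat ti| ≤ 1
  hN : ∀ j : ℤ, j ∈ Finset.Icc (-(K : ℤ)) K → dz b (j + K).toNat ni = -dz b (j + K).toNat ti
  cA : ∀ c ≤ K, |2 ^ (s + 1) * (∑ d ∈ Finset.range (K + 1), F (2 * ((c : ℤ) - d)) * zc (2 * d - K)).re + dz b c ca| ≤ 1
  cA' : ∀ c ≤ K, |2 ^ (s + 1) * (∑ d ∈ Finset.range (K + 1), F (2 * ((c : ℤ) - d)) * zc (2 * d - K)).im +
    dz b (K + 1 + c) ca| ≤ 1
  cB : ∀ c ≤ K, |2 ^ (s + 1) * (zB K zc c).re + dz b c cb| ≤ 1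
  cB' : ∀ c ≤ K, |2 ^ (s + 1) * (zB K zc c).im + dz b (K + 1 + c) cb| ≤ 1
  ta : ca < (2 ^ (b + 1)) ^ (2 * (K + 1))
  tb : cb < (2 ^ (b + 1)) ^ (2 * (K + 1))

theorem two_row {b n d d' c : ℕ} {x y : ℤ} (h : x.natAbs + y.natAbs < 2 ^ b) (hc : c < n) :
    dz b c (pkS b n [(d, x), (d', y)]) = (if d = c then x else 0) + (if d' = c then y else 0) := by
  rw [dz_pkS (fun c _ => lt_of_le_of_lt (coef_le _ c) (by
    show x.natAbs + (y.natAbs + 0) < 2 ^ b
    omega)) hc]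
  simp [coef]

theorem two_lt {b n d d' : ℕ} {x y : ℤ} (h : x.natAbs + y.natAbs < 2 ^ b) :
    pkS b n [(d, x), (d', y)] < (2 ^ (b + 1)) ^ n :=
  pkS_lt (fun c _ => lt_of_le_of_lt (coef_le _ c) (by
    show x.natAbs + (y.natAbs + 0) < 2 ^ b
    omega))

theorem pow_two_lt {b s : ℕ} (h : s + 2 ≤ b) : ((2 ^ (s + 1) : ℤ)).natAbs + ((2 ^ s : ℤ)).natAbs < 2 ^ b ∧
    ((2 ^ (s + 1) : ℤ)).natAbs + ((-2 ^ s : ℤ)).natAbs < 2 ^ b := by
  have e1 : ((2 ^ (s + 1) : ℤ)).natAbs = 2 ^ (s + 1) := by rw [Int.natAbs_pow]; rfl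
  have e2 : ((2 ^ s : ℤ)).natAbs = 2 ^ s := by rw [Int.natAbs_pow]; rfl
  have e3 : ((-2 ^ s : ℤ)).natAbs = 2 ^ s := by rw [Int.natAbs_neg, Int.natAbs_pow]; rfl
  have h1 : 2 ^ (s + 2) ≤ 2 ^ b := Nat.pow_le_pow_right (by norm_num) h
  have h2 : 2 ^ (s + 2) = 2 ^ (s + 1) + 2 ^ s + 2 ^ s := by rw [pow_succ, pow_succ]; ring
  have h3 : 0 < 2 ^ s := by positivity
  rw [e1, e2, e3]
  omega

theorem AZ_re {T : ZTab b s K F zc tr ti ni ca cb} {c : ℕ} (hc : c ≤ K) {i : ℕ} :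
    dz b c (AZ b K tr ti ni ca i) = sRow K (dz b c ca) (fun d => dz b ((c : ℤ) - d + K).toNat tr)
      (fun d => dz b ((c : ℤ) - d + K).toNat ti) i := by
  rw [AZ_eq]
  unfold sRow
  by_cases h0 : i = 0
  · rw [if_pos h0, if_pos h0]
  rw [if_neg h0, if_neg h0]
  by_cases h1 : i < bp K
  · rw [if_pos h1, if_pos h1]
    have hd : (i - 1) / 2 ≤ K := by unfold bp at h1; omega
    have t : K - (i - 1) / 2 + c = ((c : ℤ) - ((i - 1) / 2 : ℕ) + K).toNat := by omega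
    by_cases h2 : (i - 1) % 2 = 0
    · rw [if_pos h2, if_pos h2, dz_ct_lo _ _ _ _ _ (by omega), dz_win _ _ _ _ _ (by omega), t]
    · rw [if_neg h2, if_neg h2, dz_ct_lo _ _ _ _ _ (by omega), dz_win _ _ _ _ _ (by omega), t]
      have := T.hN ((c : ℤ) - ((i - 1) / 2 : ℕ)) (by rw [Finset.mem_Icc]; omega)
      rw [this]
  · rw [if_neg h1, if_neg h1, dz_of _ _ _ (by omega)]

theorem AZ_im {c : ℕ} (hc : c ≤ K) {i : ℕ} :
    dz b (K + 1 + c) (AZ b K tr ti ni ca i) = sRow K (dz b (K + 1 + c) ca) (fun d => dz b ((c : ℤ) - d + K).toNat ti)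
      (fun d => -dz b ((c : ℤ) - d + K).toNat tr) i := by
  rw [AZ_eq]
  unfold sRow
  by_cases h0 : i = 0
  · rw [if_pos h0, if_pos h0]
  rw [if_neg h0, if_neg h0]
  by_cases h1 : i < bp K
  · rw [if_pos h1, if_pos h1]
    have hd : (i - 1) / 2 ≤ K := by unfold bp at h1; omega
    have t : K - (i - 1) / 2 + c = ((c : ℤ) - ((i - 1) / 2 : ℕ) + K).toNat := by omega
    by_cases h2 : (i - 1) % 2 = 0
    · rw [if_pos h2, if_pos h2, dz_ct_hi _ _ _ _ _ (win_lt _ _ _ _), dz_win _ _ _ _ _ (by omega), t]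
    · rw [if_neg h2, if_neg h2, dz_ct_hi _ _ _ _ _ (win_lt _ _ _ _), dz_win _ _ _ _ _ (by omega), t, neg_neg]
  · rw [if_neg h1, if_neg h1, dz_of _ _ _ (by omega)]

theorem BZ_re {T : ZTab b s K F zc tr ti ni ca cb} {c : ℕ} (hc : c ≤ K) {i : ℕ} :
    dz b c (BZ b s K cb i) = sRow K (dz b c cb)
      (fun d => (if d = c then 2 ^ (s + 1) else 0) + (if d = K - c then 2 ^ s else 0)) (fun _ => 0) i := by
  rw [BZ_eq]
  unfold sRow
  by_cases h0 : i = 0
  · rw [if_pos h0, if_pos h0]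
  rw [if_neg h0, if_neg h0]
  by_cases h1 : i < bp K
  · rw [if_pos h1, if_pos h1]
    have hd : (i - 1) / 2 ≤ K := by unfold bp at h1; omega
    by_cases h2 : (i - 1) % 2 = 0
    · rw [if_pos h2, if_pos h2, dz_ct_lo _ _ _ _ _ (by omega), two_row (pow_two_lt T.hs).1 (by omega)]
      congr 1
      by_cases h3 : K - (i - 1) / 2 = c
      · rw [if_pos h3, if_pos (by omega)]
      · rw [if_neg h3, if_neg (by omega)]
    · rw [if_neg h2, if_neg h2, dz_ct_lo _ _ _ _ _ (by omega), dz_of _ _ _ (by omega), neg_zero]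
  · rw [if_neg h1, if_neg h1, dz_of _ _ _ (by omega)]

theorem BZ_im {T : ZTab b s K F zc tr ti ni ca cb} {c : ℕ} (hc : c ≤ K) {i : ℕ} :
    dz b (K + 1 + c) (BZ b s K cb i) = sRow K (dz b (K + 1 + c) cb) (fun _ => 0)
      (fun d => (if d = c then -2 ^ (s + 1) else 0) + (if d = K - c then 2 ^ s else 0)) i := by
  rw [BZ_eq]
  unfold sRow
  by_cases h0 : i = 0
  · rw [if_pos h0, if_pos h0]
  rw [if_neg h0, if_neg h0]
  by_cases h1 : i < bp K
  · rw [if_pos h1, if_pos h1]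
    have hd : (i - 1) / 2 ≤ K := by unfold bp at h1; omega
    by_cases h2 : (i - 1) % 2 = 0
    · rw [if_pos h2, if_pos h2, dz_ct_hi _ _ _ _ _ (two_lt (pow_two_lt T.hs).1), dz_of _ _ _ (by omega)]
    · rw [if_neg h2, if_neg h2, dz_ct_hi _ _ _ _ _ (of_lt _ _), two_row (pow_two_lt T.hs).2 (by omega)]
      beta_reduce
      by_cases h3 : K - (i - 1) / 2 = c
      · have h4 : (i - 1) / 2 = K - c := by omega
        rw [if_pos h3, if_pos h4]
        split_ifs <;> ring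
      · have h4 : ¬ ((i - 1) / 2 = K - c) := by omega
        rw [if_neg h3, if_neg h4]
        split_ifs <;> ring
  · rw [if_neg h1, if_neg h1, dz_of _ _ _ (by omega)]

/-- **the block of `LQ`** -/
theorem zBlk (hK : ¬ Even K) (T : ZTab b s K F zc tr ti ni ca cb) :
    PBlk (nt K L) (2 * (K + 1)) b (s + 1) 1 (AZ b K tr ti ni ca) (BZ b s K cb)
      (fun v => ∑ c ∈ Finset.range (K + 1),
        ((zA K F (fun n => sV K v n - zc n) c).re * (zB K (fun n => sV K v n - zc n) c).re +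
          (zA K F (fun n => sV K v n - zc n) c).im * (zB K (fun n => sV K v n - zc n) c).im)) := by
  refine ⟨fun k v => if k ≤ K then (zA K F (fun n => sV K v n - zc n) k).re
      else (zA K F (fun n => sV K v n - zc n) (k - (K + 1))).im,
    fun k v => if k ≤ K then (zB K (fun n => sV K v n - zc n) k).re
      else (zB K (fun n => sV K v n - zc n) (k - (K + 1))).im, fun v _ => ?_, fun k hk => ?_, fun k hk => ?_,
    fun i _ => ?_, fun i _ => ?_⟩
  · have e : 2 * (K + 1) = (K + 1) + (K + 1) := by ring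
    rw [e, Finset.sum_range_add, ← Finset.sum_add_distrib]
    refine Finset.sum_congr rfl fun c hc => ?_
    rw [Finset.mem_range] at hc
    have t : K + 1 + c - (K + 1) = c := by omega
    beta_reduce
    rw [if_pos (by omega), if_pos (by omega), if_neg (by omega), if_neg (by omega), t]
  · by_cases h : k ≤ K
    · have h1 := LR_zA_re (L := L) (q := 2 ^ (s + 1)) (e := 1) (F := F) (zc := zc) (c := k) hK zero_le_one
        (TR := fun j => dz b (j + K).toNat tr) (TI := fun j => dz b (j + K).toNat ti) (C0 := -dz b k ca) h T.hR T.hI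
        (by have := T.cA k h; push_cast; rwa [sub_neg_eq_add])
      refine h1.congr (fun v _ => by beta_reduce; rw [if_pos h]) (fun i _ => ?_)
      rw [neg_neg, AZ_re (T := T) h]
    · obtain ⟨c, rfl⟩ : ∃ c, k = K + 1 + c := ⟨k - (K + 1), by omega⟩
      have hc : c ≤ K := by omega
      have h1 := LR_zA_im (L := L) (q := 2 ^ (s + 1)) (e := 1) (F := F) (zc := zc) (c := c) hK zero_le_one
        (TR := fun j => dz b (j + K).toNat tr) (TI := fun j => dz b (j + K).toNat ti) (C0 := -dz b (K + 1 + c) ca) hc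
        T.hR T.hI (by have := T.cA' c hc; push_cast; rwa [sub_neg_eq_add])
      have t : K + 1 + c - (K + 1) = c := by omega
      refine h1.congr (fun v _ => by beta_reduce; rw [if_neg h, t]) (fun i _ => ?_)
      rw [neg_neg, AZ_im hc]
  · have q1 : |(2 : ℝ) ^ (s + 1) - ((2 ^ (s + 1) : ℤ) : ℝ)| ≤ 1 := by push_cast; simp
    have q2 : |(2 : ℝ) ^ (s + 1) * (1 / 2) - ((2 ^ s : ℤ) : ℝ)| ≤ 1 := by
      push_cast
      rw [pow_succ]
      have : (2 : ℝ) ^ s * 2 * (1 / 2) - 2 ^ s = 0 := by ring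
      rw [this]; simp
    have q3 : |(2 : ℝ) ^ (s + 1) * (3 / 2) - ((2 ^ (s + 1) + 2 ^ s : ℤ) : ℝ)| ≤ 1 := by
      push_cast
      rw [pow_succ]
      have : (2 : ℝ) ^ s * 2 * (3 / 2) - (2 ^ s * 2 + 2 ^ s) = 0 := by ring
      rw [this]; simp
    have q4 : |(2 : ℝ) ^ (s + 1) * (1 / 2) - ((2 ^ (s + 1) - 2 ^ s : ℤ) : ℝ)| ≤ 1 := by
      push_cast
      rw [pow_succ]
      have : (2 : ℝ) ^ s * 2 * (1 / 2) - (2 ^ s * 2 - 2 ^ s) = 0 := by ring
      rw [this]; simp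
    by_cases h : k ≤ K
    · have h1 := LR_zB_re (L := L) (q := 2 ^ (s + 1)) (e := 1) (zc := zc) (c := k) hK zero_le_one
        (q1 := 2 ^ (s + 1)) (q2 := 2 ^ s) (C0 := -dz b k cb) h q1 q2 q3
        (by have := T.cB k h; push_cast; rwa [sub_neg_eq_add])
      refine h1.congr (fun v _ => by beta_reduce; rw [if_pos h]) (fun i _ => ?_)
      rw [neg_neg, BZ_re (T := T) h]
    · obtain ⟨c, rfl⟩ : ∃ c, k = K + 1 + c := ⟨k - (K + 1), by omega⟩
      have hc : c ≤ K := by omega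
      have h1 := LR_zB_im (L := L) (q := 2 ^ (s + 1)) (e := 1) (zc := zc) (c := c) hK zero_le_one
        (q1 := 2 ^ (s + 1)) (q2 := 2 ^ s) (C0 := -dz b (K + 1 + c) cb) hc q1 q2 q4
        (by have := T.cB' c hc; push_cast; rwa [sub_neg_eq_add])
      have t : K + 1 + c - (K + 1) = c := by omega
      refine h1.congr (fun v _ => by beta_reduce; rw [if_neg h, t]) (fun i _ => ?_)
      rw [neg_neg, BZ_im (T := T) hc]
  · have e : 2 * (K + 1) = (K + 1) + (K + 1) := by ring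
    rw [AZ_eq]
    split_ifs
    · exact T.ta
    · rw [e]; exact ct_lt _ _ _ _ _ (win_lt _ _ _ _) (win_lt _ _ _ _)
    · rw [e]; exact ct_lt _ _ _ _ _ (win_lt _ _ _ _) (win_lt _ _ _ _)
    · exact of_lt _ _
  · have e : 2 * (K + 1) = (K + 1) + (K + 1) := by ring
    rw [BZ_eq]
    split_ifs
    · exact T.tb
    · rw [e]; exact ct_lt _ _ _ _ _ (two_lt (pow_two_lt T.hs).1) (of_lt _ _)
    · rw [e]; exact ct_lt _ _ _ _ _ (of_lt _ _) (two_lt (pow_two_lt T.hs).2)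
    · exact of_lt _ _

end

/-! ### the block of `BQ` -/

/-- the packed rows of `cv` -/
def AH (b H base : ℕ) (g a c : ℤ) (ca i : ℕ) : ℕ :=
  bif Nat.beq i 0 then ca
  else bif Nat.ble base i then
    bif Nat.ble i (Nat.add base (Nat.mul 2 H)) then
      ct b (Nat.succ H) (pkS b (Nat.succ H) (lRe g a c (Nat.sub i base))) (pkS b (Nat.succ H) (lIm g a c (Nat.sub i base)))
    else of b (Nat.mul 2 (Nat.succ H))
  else of b (Nat.mul 2 (Nat.succ H))

/-- the packed rows of the second factors, scale `2 ^ (s + 1)` -/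
def BH (b s H base : ℕ) (cb i : ℕ) : ℕ :=
  bif Nat.beq i base then AH b H base (Int.ofNat (Nat.pow 2 (Nat.succ s))) 0 0 cb i
  else AH b H base (Int.ofNat (Nat.pow 2 (Nat.succ (Nat.succ s)))) 0 0 cb i

theorem ble_iff (x y : ℕ) : Nat.ble x y = decide (x ≤ y) := by
  by_cases h : x ≤ y
  · rw [decide_eq_true h]
    exact Nat.ble_eq ▸ h
  · rw [decide_eq_false h]
    cases h2 : Nat.ble x y with
    | false => rfl
    | true => exact absurd (Nat.le_of_ble_eq_true h2) h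

theorem AH_eq (b H base : ℕ) (g a c : ℤ) (ca i : ℕ) : AH b H base g a c ca i =
    if i = 0 then ca else if base ≤ i ∧ i ≤ base + 2 * H then
      ct b (H + 1) (pkS b (H + 1) (lRe g a c (i - base))) (pkS b (H + 1) (lIm g a c (i - base)))
    else of b (2 * (H + 1)) := by
  unfold AH
  rw [beq_iff, ble_iff, ble_iff]
  have s1 : Nat.add base (Nat.mul 2 H) = base + 2 * H := rfl
  rw [s1]
  by_cases h0 : i = 0
  · rw [if_pos h0, decide_eq_true h0]; rfl
  rw [if_neg h0, decide_eq_false h0]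
  by_cases h1 : base ≤ i
  · rw [decide_eq_true h1]
    by_cases h2 : i ≤ base + 2 * H
    · rw [decide_eq_true h2, if_pos ⟨h1, h2⟩]; rfl
    · rw [decide_eq_false h2, if_neg (fun h => h2 h.2)]; rfl
  · rw [decide_eq_false h1, if_neg (fun h => h1 h.1)]; rfl

section

variable {b s H base n : ℕ} {g0 : ℝ} {g2 : ℂ} {bc : ℤ → ℂ} {g a c : ℤ} {ca cb : ℕ}

/-- the conditions on the tables (`ε = 1`) -/
structure HTab (b s H : ℕ) (g0 : ℝ) (g2 : ℂ) (bc : ℤ → ℂ) (g a c : ℤ) (ca cb : ℕ) : Prop where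
  hs : s + 3 ≤ b
  rg : g.natAbs + 3 * a.natAbs + 3 * c.natAbs < 2 ^ b
  h0 : |2 ^ (s + 1) * g0 - g| ≤ 1
  h1 : |2 ^ (s + 1) * g2.re - a| ≤ 1
  h2 : |2 ^ (s + 1) * g2.im - c| ≤ 1
  cA : ∀ k ≤ H, |2 ^ (s + 1) * (cv g0 g2 bc (2 * k)).re + dz b k ca| ≤ 1
  cA' : ∀ k ≤ H, |2 ^ (s + 1) * (cv g0 g2 bc (2 * k)).im + dz b (H + 1 + k) ca| ≤ 1
  cB : ∀ k ≤ H, |2 ^ (s + 1) * (wt2 k * (bc (2 * k)).re) + dz b k cb| ≤ 1
  cB' : ∀ k ≤ H, |2 ^ (s + 1) * (wt2 k * (bc (2 * k)).im) + dz b (H + 1 + k) cb| ≤ 1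
  ta : ca < (2 ^ (b + 1)) ^ (2 * (H + 1))
  tb : cb < (2 ^ (b + 1)) ^ (2 * (H + 1))

theorem sN_lRe (g a c : ℤ) (j : ℕ) : sN (lRe g a c j) ≤ g.natAbs + 3 * a.natAbs + 3 * c.natAbs := by
  unfold lRe
  rw [beq_iff, beq_iff, beq_iff, beq_iff]
  have n1 : Int.neg c = -c := rfl
  rw [n1]
  by_cases h0 : j = 0
  · rw [decide_eq_true h0]
    show g.natAbs + (a.natAbs + 0) ≤ _
    omega
  rw [decide_eq_false h0]
  by_cases h1 : Nat.mod j 2 = 1
  · rw [decide_eq_true h1]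
    show g.natAbs + (a.natAbs + (a.natAbs + ((bif decide (j = 1) then a else 0).natAbs + 0))) ≤ _
    cases decide (j = 1)
    · simp; omega
    · simp; omega
  · rw [decide_eq_false h1]
    show c.natAbs + ((-c).natAbs + ((bif decide (j = 2) then c else 0).natAbs + 0)) ≤ _
    cases decide (j = 2)
    · simp; omega
    · simp; omega

theorem sN_lIm (g a c : ℤ) (j : ℕ) : sN (lIm g a c j) ≤ g.natAbs + 3 * a.natAbs + 3 * c.natAbs := by
  unfold lIm
  rw [beq_iff, beq_iff, beq_iff, beq_iff]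
  have n1 : Int.neg c = -c := rfl
  have n2 : Int.neg a = -a := rfl
  rw [n1, n2]
  by_cases h0 : j = 0
  · rw [decide_eq_true h0]
    show c.natAbs + 0 ≤ _
    omega
  rw [decide_eq_false h0]
  by_cases h1 : Nat.mod j 2 = 1
  · rw [decide_eq_true h1]
    show (-c).natAbs + (c.natAbs + ((bif decide (j = 1) then c else 0).natAbs + 0)) ≤ _
    cases decide (j = 1)
    · simp; omega
    · simp; omega
  · rw [decide_eq_false h1]
    show g.natAbs + (a.natAbs + (a.natAbs + ((bif decide (j = 2) then -a else 0).natAbs + 0))) ≤ _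
    cases decide (j = 2)
    · simp; omega
    · simp; omega

theorem AH_re (rg : g.natAbs + 3 * a.natAbs + 3 * c.natAbs < 2 ^ b) {k : ℕ} (hk : k ≤ H) {i : ℕ} :
    dz b k (AH b H base g a c ca i) = hRow (2 * H) base (dz b k ca) (ihr (cvR g a k) (cvI c k)) i := by
  rw [AH_eq]
  unfold hRow
  by_cases h0 : i = 0
  · rw [if_pos h0, if_pos h0]
  rw [if_neg h0, if_neg h0]
  by_cases h1 : base ≤ i ∧ i ≤ base + 2 * H
  · rw [if_pos h1, if_pos h1, dz_ct_lo _ _ _ _ _ (by omega),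
      dz_pkS (fun _ _ => lt_of_le_of_lt ((coef_le _ _).trans (sN_lRe _ _ _ _)) rg) (by omega), lRe_eq]
  · rw [if_neg h1, if_neg h1, dz_of _ _ _ (by omega)]

theorem AH_im (rg : g.natAbs + 3 * a.natAbs + 3 * c.natAbs < 2 ^ b) {k : ℕ} (hk : k ≤ H) {i : ℕ} :
    dz b (H + 1 + k) (AH b H base g a c ca i) =
      hRow (2 * H) base (dz b (H + 1 + k) ca) (ihr (fun m => -cvI c k m) (cvR g a k)) i := by
  rw [AH_eq]
  unfold hRow
  by_cases h0 : i = 0
  · rw [if_pos h0, if_pos h0]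
  rw [if_neg h0, if_neg h0]
  by_cases h1 : base ≤ i ∧ i ≤ base + 2 * H
  · rw [if_pos h1, if_pos h1, dz_ct_hi _ _ _ _ _
        (pkS_lt (fun _ _ => lt_of_le_of_lt ((coef_le _ _).trans (sN_lRe _ _ _ _)) rg)),
      dz_pkS (fun _ _ => lt_of_le_of_lt ((coef_le _ _).trans (sN_lIm _ _ _ _)) rg) (by omega), lIm_eq]
  · rw [if_neg h1, if_neg h1, dz_of _ _ _ (by omega)]

theorem AH_lt (rg : g.natAbs + 3 * a.natAbs + 3 * c.natAbs < 2 ^ b) (ta : ca < (2 ^ (b + 1)) ^ (2 * (H + 1))) (i : ℕ) :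
    AH b H base g a c ca i < (2 ^ (b + 1)) ^ (2 * (H + 1)) := by
  have e : 2 * (H + 1) = (H + 1) + (H + 1) := by ring
  rw [AH_eq]
  split_ifs
  · exact ta
  · rw [e]
    exact ct_lt _ _ _ _ _ (pkS_lt (fun _ _ => lt_of_le_of_lt ((coef_le _ _).trans (sN_lRe _ _ _ _)) rg))
      (pkS_lt (fun _ _ => lt_of_le_of_lt ((coef_le _ _).trans (sN_lIm _ _ _ _)) rg))
  · exact of_lt _ _

/-- the weight of a row at the scale `2 ^ (s + 1)` -/
def wI (s k : ℕ) : ℤ := if k = 0 then 2 ^ (s + 1) else 2 ^ (s + 2)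

theorem wI_rg (hs : s + 3 ≤ b) (k : ℕ) : (wI s k).natAbs + 3 * (0 : ℤ).natAbs + 3 * (0 : ℤ).natAbs < 2 ^ b := by
  have h1 : 2 ^ (s + 3) ≤ 2 ^ b := Nat.pow_le_pow_right (by norm_num) hs
  have h2 : 2 ^ (s + 3) = 2 * 2 ^ (s + 2) := by rw [pow_succ]; ring
  have h3 : 2 ^ (s + 2) = 2 * 2 ^ (s + 1) := by rw [pow_succ]; ring
  have h4 : 0 < 2 ^ (s + 1) := by positivity
  have e1 : ((2 ^ (s + 1) : ℤ)).natAbs = 2 ^ (s + 1) := by rw [Int.natAbs_pow]; rfl
  have e2 : ((2 ^ (s + 2) : ℤ)).natAbs = 2 ^ (s + 2) := by rw [Int.natAbs_pow]; rfl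
  unfold wI
  split_ifs
  · rw [e1]; simp; omega
  · rw [e2]; simp; omega

theorem BH_eq (b s H base cb i : ℕ) : BH b s H base cb i = AH b H base (wI s (i - base)) 0 0 cb i ∨ i < base := by
  by_cases h : base ≤ i
  · left
    unfold BH wI
    rw [beq_iff]
    have s7 : (Int.ofNat (Nat.pow 2 (Nat.succ s)) : ℤ) = 2 ^ (s + 1) := by
      show ((2 ^ (s + 1) : ℕ) : ℤ) = _
      push_cast; rfl
    have s8 : (Int.ofNat (Nat.pow 2 (Nat.succ (Nat.succ s))) : ℤ) = 2 ^ (s + 2) := by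
      show ((2 ^ (s + 2) : ℕ) : ℤ) = _
      push_cast; rfl
    rw [s7, s8]
    by_cases h1 : i = base
    · rw [decide_eq_true h1, if_pos (by omega)]; rfl
    · rw [decide_eq_false h1, if_neg (by omega)]; rfl
  · right; omega

theorem BH_low (b s H base cb i : ℕ) (h : i < base) : BH b s H base cb i = AH b H base (2 ^ (s + 2)) 0 0 cb i := by
  unfold BH
  rw [beq_iff, decide_eq_false (by omega)]
  have s8 : (Int.ofNat (Nat.pow 2 (Nat.succ (Nat.succ s))) : ℤ) = 2 ^ (s + 2) := by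
    show ((2 ^ (s + 2) : ℕ) : ℤ) = _
    push_cast; rfl
  rw [s8]
  rfl

/-- the weights of the rows -/
theorem ihr_w (s k j : ℕ) : ihr (cvR (wI s k) 0 k) (cvI 0 k) j = ihr (cvR (wI s j) 0 k) (cvI 0 k) j := by
  unfold ihr cvR cvI wI
  split_ifs <;> first | rfl | omega

theorem ihr_w' (s k j : ℕ) :
    ihr (fun m => -cvI 0 k m) (cvR (wI s k) 0 k) j = ihr (fun m => -cvI 0 k m) (cvR (wI s j) 0 k) j := by
  unfold ihr cvR cvI wI
  split_ifs <;> first | rfl | omega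

theorem BH_re (hs : s + 3 ≤ b) {k : ℕ} (hk : k ≤ H) {i : ℕ} :
    dz b k (BH b s H base cb i) = hRow (2 * H) base (dz b k cb) (ihr (cvR (wI s k) 0 k) (cvI 0 k)) i := by
  rcases BH_eq b s H base cb i with h | h
  · rw [h, AH_re (wI_rg hs _) hk]
    unfold hRow
    rw [ihr_w s k (i - base)]
  · rw [BH_low _ _ _ _ _ _ h, AH_eq]
    unfold hRow
    by_cases h0 : i = 0
    · rw [if_pos h0, if_pos h0]
    · rw [if_neg h0, if_neg h0, if_neg (by omega), if_neg (by omega), dz_of _ _ _ (by omega)]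

theorem BH_im (hs : s + 3 ≤ b) {k : ℕ} (hk : k ≤ H) {i : ℕ} :
    dz b (H + 1 + k) (BH b s H base cb i) =
      hRow (2 * H) base (dz b (H + 1 + k) cb) (ihr (fun m => -cvI 0 k m) (cvR (wI s k) 0 k)) i := by
  rcases BH_eq b s H base cb i with h | h
  · rw [h, AH_im (wI_rg hs _) hk]
    unfold hRow
    rw [ihr_w' s k (i - base)]
  · rw [BH_low _ _ _ _ _ _ h, AH_eq]
    unfold hRow
    by_cases h0 : i = 0
    · rw [if_pos h0, if_pos h0]
    · rw [if_neg h0, if_neg h0, if_neg (by omega), if_neg (by omega), dz_of _ _ _ (by omega)]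

theorem BH_lt (hs : s + 3 ≤ b) (tb : cb < (2 ^ (b + 1)) ^ (2 * (H + 1))) (i : ℕ) :
    BH b s H base cb i < (2 ^ (b + 1)) ^ (2 * (H + 1)) := by
  rcases BH_eq b s H base cb i with h | h
  · rw [h]; exact AH_lt (wI_rg hs _) tb i
  · rw [BH_low _ _ _ _ _ _ h]
    have := wI_rg hs 1
    unfold wI at this
    rw [if_neg (by norm_num)] at this
    exact AH_lt this tb i

theorem wt2_wI (s k : ℕ) : (2 : ℝ) ^ (s + 1) * wt2 k = ((wI s k : ℤ) : ℝ) := by
  unfold wt2 wI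
  by_cases h : k = 0
  · rw [if_pos h, if_pos h]; push_cast; ring
  · rw [if_neg h, if_neg h]; push_cast; ring

/-- **the block of `BQ`** -/
theorem hBlk (hb : 0 < base) (hn : base + 2 * H < n) (T : HTab b s H g0 g2 bc g a c ca cb) :
    PBlk n (2 * (H + 1)) b (s + 1) 4 (AH b H base g a c ca) (BH b s H base cb)
      (fun v => ∑ k ∈ Finset.range (H + 1),
        ((cv g0 g2 (fun m => hV (2 * H) base v m - bc m) (2 * k)).re *
            (wt2 k * ((fun m => hV (2 * H) base v m - bc m) (2 * k)).re) +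
          (cv g0 g2 (fun m => hV (2 * H) base v m - bc m) (2 * k)).im *
            (wt2 k * ((fun m => hV (2 * H) base v m - bc m) (2 * k)).im))) := by
  have hL : Even (2 * H) := even_two_mul H
  refine ⟨fun k v => if k ≤ H then (cv g0 g2 (fun m => hV (2 * H) base v m - bc m) (2 * k)).re
      else (cv g0 g2 (fun m => hV (2 * H) base v m - bc m) (2 * ((k - (H + 1) : ℕ) : ℤ))).im,
    fun k v => if k ≤ H then wt2 k * ((fun m => hV (2 * H) base v m - bc m) (2 * k)).re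
      else wt2 (k - (H + 1)) * ((fun m => hV (2 * H) base v m - bc m) (2 * ((k - (H + 1) : ℕ) : ℤ))).im,
    fun v _ => ?_, fun k hk => ?_, fun k hk => ?_, fun i _ => AH_lt T.rg T.ta i, fun i _ => BH_lt T.hs T.tb i⟩
  · have e : 2 * (H + 1) = (H + 1) + (H + 1) := by ring
    rw [e, Finset.sum_range_add, ← Finset.sum_add_distrib]
    refine Finset.sum_congr rfl fun c hc => ?_
    rw [Finset.mem_range] at hc
    have t : H + 1 + c - (H + 1) = c := by omega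
    beta_reduce
    rw [if_pos (by omega), if_pos (by omega), if_neg (by omega), if_neg (by omega), t]
  · by_cases h : k ≤ H
    · have h1 := LR_bA_re (n := n) (q := 2 ^ (s + 1)) (ε := 1) (g0 := g0) (g2 := g2) (bc := bc) (c := k) hL hb hn
        zero_le_one (g := g) (a := a) (b := c) T.h0 T.h1 T.h2 (C0 := -dz b k ca)
        (by have := T.cA k h; push_cast; rwa [sub_neg_eq_add])
      refine (h1.congr (fun v _ => by beta_reduce; rw [if_pos h]) (fun i _ => ?_)).mono (by norm_num)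
      rw [neg_neg, AH_re T.rg h]
    · obtain ⟨j, rfl⟩ : ∃ j, k = H + 1 + j := ⟨k - (H + 1), by omega⟩
      have hj : j ≤ H := by omega
      have h1 := LR_bA_im (n := n) (q := 2 ^ (s + 1)) (ε := 1) (g0 := g0) (g2 := g2) (bc := bc) (c := j) hL hb hn
        zero_le_one (g := g) (a := a) (b := c) T.h0 T.h1 T.h2 (C0 := -dz b (H + 1 + j) ca)
        (by have := T.cA' j hj; push_cast; rwa [sub_neg_eq_add])
      have t : H + 1 + j - (H + 1) = j := by omega
      refine (h1.congr (fun v _ => by beta_reduce; rw [if_neg h, t]) (fun i _ => ?_)).mono (by norm_num)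
      rw [neg_neg, AH_im T.rg hj]
  · by_cases h : k ≤ H
    · have h1 := LR_bB_re (n := n) (q := 2 ^ (s + 1)) (ε := 1) (bc := bc) (c := k) hL hb hn
        zero_le_one (w := wI s k) (by rw [wt2_wI]; simp) (C0 := -dz b k cb)
        (by have := T.cB k h; push_cast; rwa [sub_neg_eq_add])
      refine (h1.congr (fun v _ => by beta_reduce; rw [if_pos h]) (fun i _ => ?_)).mono (by norm_num)
      rw [neg_neg, BH_re T.hs h]
    · obtain ⟨j, rfl⟩ : ∃ j, k = H + 1 + j := ⟨k - (H + 1), by omega⟩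
      have hj : j ≤ H := by omega
      have h1 := LR_bB_im (n := n) (q := 2 ^ (s + 1)) (ε := 1) (bc := bc) (c := j) hL hb hn
        zero_le_one (w := wI s j) (by rw [wt2_wI]; simp) (C0 := -dz b (H + 1 + j) cb)
        (by have := T.cB' j hj; push_cast; rwa [sub_neg_eq_add])
      have t : H + 1 + j - (H + 1) = j := by omega
      refine (h1.congr (fun v _ => by beta_reduce; rw [if_neg h, t]) (fun i _ => ?_)).mono (by norm_num)
      rw [neg_neg, BH_im T.hs hj]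

end

/-! ### `(m - lam) LoA + (mu/2) Lo1A` -/

/-- the arrays of the local form -/
structure LArr (K H : ℕ) (u p r : ℤ → ℂ) : Prop where
  su : Sup K u
  eu : ∀ n, Even n → u n = 0
  sp : Sup (2 * H) p
  sr : Sup (2 * H) r
  hp : ∀ n, p (-n) = (starRingEnd ℂ) (p n)
  hr : ∀ n, r (-n) = (starRingEnd ℂ) (r n)
  op : ∀ n, ¬ Even n → p n = 0
  or' : ∀ n, ¬ Even n → r n = 0

/-- the form of the rows of `LQ` -/
noncomputable def zQ (K : ℕ) (F u : ℤ → ℂ) : ℝ :=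
  ∑ c ∈ Finset.range (K + 1), ((zA K F u c).re * (zB K u c).re + (zA K F u c).im * (zB K u c).im)
/-- the form of the rows of `BQ` -/
noncomputable def hQ (H : ℕ) (g0 : ℝ) (g2 : ℂ) (u : ℤ → ℂ) : ℝ :=
  ∑ k ∈ Finset.range (H + 1), ((cv g0 g2 u (2 * k)).re * (wt2 k * (u (2 * k)).re) +
    (cv g0 g2 u (2 * k)).im * (wt2 k * (u (2 * k)).im))

theorem lo_blocks {P : Par} {K0 : ℕ} (L : Lo P K0) {K H N : ℕ} (hK : ¬ Even K) (hKN : K ≤ N) (hHN : 2 * H ≤ N)
    (mu : ℝ) {p r s : ℤ → ℂ} (h : LArr K H (fun n => s n - fc L.zs n) (fun n => p n - fc (fun t => (L.b2s t : ℂ)) n)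
      (fun n => r n - fc (fun t => (L.b3s t : ℂ)) n)) :
    (P.m - P.lam) * LoA L N p r s + mu / 2 * Lo1A L N p r s =
      zQ K (fun n => ((P.m - P.lam : ℝ) : ℂ) * fc (fun t => ((P.w t * L.f t : ℝ) : ℂ)) n +
        ((mu / 2 : ℝ) : ℂ) * fc (fun t => (L.f t : ℂ)) n) (fun n => s n - fc L.zs n)
      + hQ H (-(L.p2 * (P.m - P.lam)) * 1 + -(L.p2 * (mu / 2)) * 1)
          (((-(L.p2 * (P.m - P.lam)) : ℝ) : ℂ) * P.eta + ((-(L.p2 * (mu / 2)) : ℝ) : ℂ) * 0)
          (fun n => p n - fc (fun t => (L.b2s t : ℂ)) n)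
      + hQ H (-(L.p3 * (P.m - P.lam)) * 1 + -(L.p3 * (mu / 2)) * 1)
          (((-(L.p3 * (P.m - P.lam)) : ℝ) : ℂ) * P.eta + ((-(L.p3 * (mu / 2)) : ℝ) : ℂ) * 0)
          (fun n => r n - fc (fun t => (L.b3s t : ℂ)) n) := by
  unfold zQ hQ
  rw [← LQ_rows hK hKN _ h.su h.eu, ← BQ_rows (N := N + 2) (by omega) _ _ h.sp h.hp h.op,
    ← BQ_rows (N := N + 2) (by omega) _ _ h.sr h.hr h.or', LQ_lin, BQ_lin, BQ_lin]
  have q1 : ∀ u, BQ (N + 2) 1 P.eta u = SQ (N + 2) P.eta u := fun u => (SQ_BQ _ _ u).symm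
  have q2 : ∀ u, BQ (N + 2) 1 0 u = S1Q (N + 2) u := fun u => (S1Q_BQ _ u).symm
  have w1 : S1Q (N + 2) (fun n => p n - fc (fun t => (L.b2s t : ℂ)) n) =
      S1Q N (fun n => p n - fc (fun t => (L.b2s t : ℂ)) n) := by
    rw [S1Q_BQ, S1Q_BQ, BQ_win (show 2 * H ≤ N + 2 by omega) _ _ h.sp, BQ_win hHN _ _ h.sp]
  have w2 : S1Q (N + 2) (fun n => r n - fc (fun t => (L.b3s t : ℂ)) n) =
      S1Q N (fun n => r n - fc (fun t => (L.b3s t : ℂ)) n) := by
    rw [S1Q_BQ, S1Q_BQ, BQ_win (show 2 * H ≤ N + 2 by omega) _ _ h.sr, BQ_win hHN _ _ h.sr]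
  rw [q1, q1, q2, q2, w1, w2]
  unfold LoA Lo1A
  ring

end Helper55.SH
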