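import Pool.Agent.Helper55.SH.LoRec
import Pool.Agent.Helper43.CL.LBm

/-!
# Project RC, SHARP, cell engine (O3): the blocks LO in the format of the matrix check

`col n A`: the list of the packed columns. `PBlk.lb`: a packed block as a certified block `bl` of helper25's check.
`lb_z`, `lb_p`, `lb_r`: the pieces `gLO`, `gZP`, `gZR`.
-/

set_option autoImplicit false

open MeasureTheory Set Filter Topology

namespace Helper55.SH

open Helper95.RC Helper95.SH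
open Helper49.Cell (Rec)
open Helper43.CL (Fm BR2 LoE LB eP)
open Helper25.SH.Mat (Blk row sgr)

/-- the columns of a block -/
def col (n : ℕ) (A : ℕ → ℕ) : List ℕ := (List.range n).map A

theorem row_col {n b : ℕ} (A : ℕ → ℕ) (k : ℕ) {i : ℕ} (hi : i < n) : row b (col n A) k i = dz b k (A i) := by
  unfold row col Helper25.SH.Mat.dg dz
  have e : ((List.range n).map A).getD i 0 = A i := by
    rw [List.getD_eq_getElem?_getD, List.getElem?_map, List.getElem?_range hi]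
    rfl
  rw [e, dg_eq]
  push_cast
  rfl

section

variable {n nf b s : ℕ} {e : ℝ} {A B : ℕ → ℕ} {g : (ℕ → ℝ) → ℝ}

/-- **a packed block as a certified block of the check** -/
theorem PBlk.lb (h : PBlk n nf b s e A B g) (he : 0 ≤ e) {G w : ℝ} {sg : Bool} {c : ℕ} (hw : G * w = sgr sg * (2 * c))
    {a a' : ℕ → ℝ} (hA : ∀ k < nf, ∀ i < n, |(row b (col n A) k i : ℝ)| ≤ a k)
    (hB : ∀ k < nf, ∀ i < n, |(row b (col n B) k i : ℝ)| ≤ a' k) (hA0 : ∀ k < nf, 0 ≤ a k) (hB0 : ∀ k < nf, 0 ≤ a' k) :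
    LB n (G * (2 ^ s * 2 ^ s)) (fun v => w * g v) (fun v => Blk.val b n v (.bl sg c nf (col n A) (col n B)))
      (eP n nf (2 * c) a a' (fun _ => e) (fun _ => e)) := by
  obtain ⟨X, Y, h1, h2, h3, -, -⟩ := h
  have k := LB.bl (b := b) (N := n) (m := nf) (G := G) (q1 := 2 ^ s) (q2 := 2 ^ s) (w := fun _ => w) (X := X) (Y := Y)
    (A := col n A) (B := col n B) (e1 := fun _ => e) (e2 := fun _ => e) (a := a) (a' := a') (s := sg) (c := c)
    (fun k hk => (h2 k hk).congr (fun _ _ => rfl) (fun i hi => row_col A k hi))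
    (fun k hk => (h3 k hk).congr (fun _ _ => rfl) (fun i hi => row_col B k hi)) hA hB (fun _ _ => he) (fun _ _ => he)
    hA0 hB0 (fun _ _ => hw)
  refine k.congr (fun v hv => ?_) (fun _ _ => rfl)
  rw [h1 v hv, Finset.mul_sum]

end

section

variable {R : Rec} {c : CD} {b r s K H : ℕ} {T : LoT}

/-- the columns of `gLO` -/
def cAZ (b K H : ℕ) (T : LoT) : List ℕ := col (nt K (2 * H)) (AZ b K T.tr T.ti T.ni T.ca)
def cBZ (b s K H : ℕ) (T : LoT) : List ℕ := col (nt K (2 * H)) (BZ b s K T.cb)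
/-- the columns of `gZP` -/
def cAP (b K H : ℕ) (T : LoT) : List ℕ := col (nt K (2 * H)) (AH b H (bp K) T.g2 T.a2 T.c2 T.ca2)
def cBP (b s K H : ℕ) (T : LoT) : List ℕ := col (nt K (2 * H)) (BH b s H (bp K) T.cb2)
/-- the columns of `gZR` -/
def cAR (b K H : ℕ) (T : LoT) : List ℕ := col (nt K (2 * H)) (AH b H (br K (2 * H)) T.g3 T.a3 T.c3 T.ca3)
def cBR (b s K H : ℕ) (T : LoT) : List ℕ := col (nt K (2 * H)) (BH b s H (br K (2 * H)) T.cb3)

/-- **`gLO`** -/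
theorem lb_z (h : okLo R b r s K H T = true) (i : IsRec R c) (hK : ¬ Even K) (hK0 : c.K0 ≤ K) {G w : ℝ} {sg : Bool}
    {d : ℕ} (hw : G * w = sgr sg * (2 * d)) {a a' : ℕ → ℝ}
    (hA : ∀ k < 2 * (K + 1), ∀ i < nt K (2 * H), |(row b (cAZ b K H T) k i : ℝ)| ≤ a k)
    (hB : ∀ k < 2 * (K + 1), ∀ i < nt K (2 * H), |(row b (cBZ b s K H T) k i : ℝ)| ≤ a' k)
    (hA0 : ∀ k < 2 * (K + 1), 0 ≤ a k) (hB0 : ∀ k < 2 * (K + 1), 0 ≤ a' k) :
    LB (nt K (2 * H)) (G * (2 ^ (s + 1) * 2 ^ (s + 1)))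
      (fun v => w * ∑ j ∈ Finset.range (K + 1), ((zA K (Fm c) (zes c (sV K v)) j).re * (zB K (zes c (sV K v)) j).re
          + (zA K (Fm c) (zes c (sV K v)) j).im * (zB K (zes c (sV K v)) j).im))
      (fun v => Blk.val b (nt K (2 * H)) v (.bl sg d (2 * (K + 1)) (cAZ b K H T) (cBZ b s K H T)))
      (eP (nt K (2 * H)) (2 * (K + 1)) (2 * d) a a' (fun _ => 1) (fun _ => 1)) :=
  (lo_z h i i.loE hK hK0).lb zero_le_one hw hA hB hA0 hB0

/-- **`gZP`** (weight `w < 0`) -/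
theorem lb_p (h : okLo R b r s K H T = true) (i : IsRec R c) {G w : ℝ} {sg : Bool}
    {d : ℕ} (hw : G * w = sgr sg * (2 * d)) {a a' : ℕ → ℝ}
    (hA : ∀ k < 2 * (H + 1), ∀ i < nt K (2 * H), |(row b (cAP b K H T) k i : ℝ)| ≤ a k)
    (hB : ∀ k < 2 * (H + 1), ∀ i < nt K (2 * H), |(row b (cBP b s K H T) k i : ℝ)| ≤ a' k)
    (hA0 : ∀ k < 2 * (H + 1), 0 ≤ a k) (hB0 : ∀ k < 2 * (H + 1), 0 ≤ a' k) :
    LB (nt K (2 * H)) (G * (2 ^ (s + 1) * 2 ^ (s + 1)))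
      (fun v => w * BR2 H (c.L.p2 * (c.P.m - c.P.lam) + c.L.p2 * (c.mu1 / 2))
        (((c.L.p2 * (c.P.m - c.P.lam) : ℝ) : ℂ) * c.P.eta) (zep c (pV K (2 * H) v)))
      (fun v => Blk.val b (nt K (2 * H)) v (.bl sg d (2 * (H + 1)) (cAP b K H T) (cBP b s K H T)))
      (eP (nt K (2 * H)) (2 * (H + 1)) (2 * d) a a' (fun _ => 4) (fun _ => 4)) :=
  (lo_p h i).lb (by norm_num) hw hA hB hA0 hB0

/-- **`gZR`** (weight `w < 0`) -/
theorem lb_r (h : okLo R b r s K H T = true) (i : IsRec R c) {G w : ℝ} {sg : Bool}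
    {d : ℕ} (hw : G * w = sgr sg * (2 * d)) {a a' : ℕ → ℝ}
    (hA : ∀ k < 2 * (H + 1), ∀ i < nt K (2 * H), |(row b (cAR b K H T) k i : ℝ)| ≤ a k)
    (hB : ∀ k < 2 * (H + 1), ∀ i < nt K (2 * H), |(row b (cBR b s K H T) k i : ℝ)| ≤ a' k)
    (hA0 : ∀ k < 2 * (H + 1), 0 ≤ a k) (hB0 : ∀ k < 2 * (H + 1), 0 ≤ a' k) :
    LB (nt K (2 * H)) (G * (2 ^ (s + 1) * 2 ^ (s + 1)))
      (fun v => w * BR2 H (c.L.p3 * (c.P.m - c.P.lam) + c.L.p3 * (c.mu1 / 2))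
        (((c.L.p3 * (c.P.m - c.P.lam) : ℝ) : ℂ) * c.P.eta) (zer c (rV K (2 * H) v)))
      (fun v => Blk.val b (nt K (2 * H)) v (.bl sg d (2 * (H + 1)) (cAR b K H T) (cBR b s K H T)))
      (eP (nt K (2 * H)) (2 * (H + 1)) (2 * d) a a' (fun _ => 4) (fun _ => 4)) :=
  (lo_r h i).lb (by norm_num) hw hA hB hA0 hB0

end

end Helper55.SH
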