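import Pool.Agent.Helper55.SH.LoLB
import Pool.Agent.Helper43.CL.Dig
import Pool.Agent.Helper42.SH.HFend
import Pool.Agent.Helper70.SH.Asm

/-!
# Project RC, SHARP, cell engine (O3): the fields `lo`, `zp`, `zr` of the pieces of a cell

`okPc R b r s K H T q`: ONE kernel check (tables and the bound `2 ^ q` of all digits); `LBB_lo`, `LBB_zp`, `LBB_zr`: the three
fields of helper42's `Pieces`, with the blocks `bLO`, `bZP`, `bZR` and the errors `eLO`, `eZH`.
-/

set_option autoImplicit false

open MeasureTheory Set Filter Topology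

namespace Helper55.SH

open Helper95.RC Helper95.SH
open Helper49.Cell (Rec Crt bif_iff)
open Helper43.CL (Fm BR2 LoE LB eP okDig okDig_real)
open Helper25.SH.Mat (Blk row sgr)
open Helper42.SH (LBB gLO gZP gZR)

/-- the cell data of helper70 belong to the record -/
theorem isRec (R : Rec) {C : Crt} (h : R.ok C = true) {K0 : ℕ} (len : Helper70.SH.Len R K0) (s : ℕ) :
    IsRec R (Helper70.SH.cd R h len s) := ⟨rfl, rfl, rfl, rfl, rfl, rfl, rfl, rfl⟩

/-! ### the check -/

/-- **ONE CHECK** for the three blocks; `q`: all digits are at most `2 ^ q` -/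
def okPc (R : Rec) (b r s K H : ℕ) (T : LoT) (q : ℕ) : Bool :=
  bif okLo R b r s K H T then
    bif okDig b (List.replicate (Nat.mul 2 (Nat.succ K)) q) (cAZ b K H T) then
      bif okDig b (List.replicate (Nat.mul 2 (Nat.succ K)) q) (cBZ b s K H T) then
        bif okDig b (List.replicate (Nat.mul 2 (Nat.succ H)) q) (cAP b K H T) then
          bif okDig b (List.replicate (Nat.mul 2 (Nat.succ H)) q) (cBP b s K H T) then
            bif okDig b (List.replicate (Nat.mul 2 (Nat.succ H)) q) (cAR b K H T) then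
              okDig b (List.replicate (Nat.mul 2 (Nat.succ H)) q) (cBR b s K H T)
            else false
          else false
        else false
      else false
    else false
  else false

/-- the error of a block with `m` functionals, digits at most `2 ^ q`, row errors `e`, weight `10 ^ 9` -/
def eU (n m q e : ℕ) : ℕ :=
  Nat.mul 1000000000 (Nat.mul n (Nat.mul m (Nat.add (Nat.mul (Nat.pow 2 (Nat.succ q)) e) (Nat.mul e e))))

theorem eU_eq (n m q e : ℕ) : ((eU n m q e : ℕ) : ℝ) =
    eP n m (2 * (500000000 : ℕ)) (fun _ => 2 ^ q) (fun _ => 2 ^ q) (fun _ => (e : ℝ)) (fun _ => (e : ℝ)) := by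
  show ((1000000000 * (n * (m * (2 ^ (q + 1) * e + e * e))) : ℕ) : ℝ) = _
  unfold eP
  rw [Finset.sum_const, Finset.card_range, nsmul_eq_mul]
  push_cast
  ring

/-- the blocks -/
def bLO (b s K H : ℕ) (T : LoT) : List Blk := [.bl false 500000000 (2 * (K + 1)) (cAZ b K H T) (cBZ b s K H T)]
def bZP (b s K H : ℕ) (T : LoT) : List Blk := [.bl true 500000000 (2 * (H + 1)) (cAP b K H T) (cBP b s K H T)]
def bZR (b s K H : ℕ) (T : LoT) : List Blk := [.bl true 500000000 (2 * (H + 1)) (cAR b K H T) (cBR b s K H T)]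
/-- the errors -/
def eLO (K H q : ℕ) : ℕ := eU (nt K (2 * H)) (2 * (K + 1)) q 1
def eZH (K H q : ℕ) : ℕ := eU (nt K (2 * H)) (2 * (H + 1)) q 4

section

variable {R : Rec} {c : CD} {b r s K H q : ℕ} {T : LoT}

theorem okPc_iff (h : okPc R b r s K H T q = true) : okLo R b r s K H T = true ∧
    okDig b (List.replicate (2 * (K + 1)) q) (cAZ b K H T) = true ∧
    okDig b (List.replicate (2 * (K + 1)) q) (cBZ b s K H T) = true ∧
    okDig b (List.replicate (2 * (H + 1)) q) (cAP b K H T) = true ∧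
    okDig b (List.replicate (2 * (H + 1)) q) (cBP b s K H T) = true ∧
    okDig b (List.replicate (2 * (H + 1)) q) (cAR b K H T) = true ∧
    okDig b (List.replicate (2 * (H + 1)) q) (cBR b s K H T) = true := by
  unfold okPc at h
  simp only [bif_iff] at h
  exact h

/-- the bound of the digits -/
theorem dig_bd {m n : ℕ} {A : ℕ → ℕ} (h : okDig b (List.replicate m q) (col n A) = true) :
    ∀ k < m, ∀ i < n, |(row b (col n A) k i : ℝ)| ≤ 2 ^ q := by
  intro k hk i hi
  have h1 := okDig_real (N := n) h (by unfold col; rw [List.length_map, List.length_range]) k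
    (by rw [List.length_replicate]; exact hk) i hi
  have e : (List.replicate m q).getD k 0 = q := by
    rw [List.getD_eq_getElem?_getD, List.getElem?_replicate, if_pos hk]
    rfl
  rw [e] at h1
  exact h1

theorem sc_eq (hs : s = 55) : (10 : ℝ) ^ 9 * (2 ^ (s + 1) * 2 ^ (s + 1)) = 10 ^ 9 * 2 ^ 112 := by
  rw [hs]
  norm_num

/-- **the field `lo`** -/
theorem LBB_lo (h : okPc R b r s K H T q = true) (i : IsRec R c) (hs : s = 55) (hK : ¬ Even K) (hK0 : c.K0 ≤ K) :
    LBB b (nt K (2 * H)) (10 ^ 9 * 2 ^ 112) (fun v => gLO c K v) (bLO b s K H T) ((eLO K H q : ℕ) : ℝ) := by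
  obtain ⟨h0, h1, h2, -, -, -, -⟩ := okPc_iff h
  have k := lb_z (G := 10 ^ 9) (w := 1) (sg := false) (d := 500000000) h0 i hK hK0 (by unfold sgr; norm_num)
    (dig_bd h1) (dig_bd h2) (fun _ _ => by positivity) (fun _ _ => by positivity)
  unfold eLO bLO
  rw [eU_eq, ← sc_eq hs, Nat.cast_one]
  refine LBB.one (LB.congr k (fun v _ => ?_) fun _ _ => rfl)
  rw [one_mul]
  rfl

/-- **the field `zp`** -/
theorem LBB_zp (h : okPc R b r s K H T q = true) (i : IsRec R c) (hs : s = 55) :
    LBB b (nt K (2 * H)) (10 ^ 9 * 2 ^ 112) (fun v => gZP c K H v) (bZP b s K H T) ((eZH K H q : ℕ) : ℝ) := by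
  obtain ⟨h0, -, -, h1, h2, -, -⟩ := okPc_iff h
  have k := lb_p (G := 10 ^ 9) (w := -1) (sg := true) (d := 500000000) h0 i (by unfold sgr; norm_num)
    (dig_bd h1) (dig_bd h2) (fun _ _ => by positivity) (fun _ _ => by positivity)
  unfold eZH bZP
  rw [eU_eq, ← sc_eq hs, Nat.cast_ofNat]
  refine LBB.one (LB.congr k (fun v _ => ?_) fun _ _ => rfl)
  unfold gZP
  ring

/-- **the field `zr`** -/
theorem LBB_zr (h : okPc R b r s K H T q = true) (i : IsRec R c) (hs : s = 55) :
    LBB b (nt K (2 * H)) (10 ^ 9 * 2 ^ 112) (fun v => gZR c K H v) (bZR b s K H T) ((eZH K H q : ℕ) : ℝ) := by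
  obtain ⟨h0, -, -, -, -, h1, h2⟩ := okPc_iff h
  have k := lb_r (G := 10 ^ 9) (w := -1) (sg := true) (d := 500000000) h0 i (by unfold sgr; norm_num)
    (dig_bd h1) (dig_bd h2) (fun _ _ => by positivity) (fun _ _ => by positivity)
  unfold eZH bZR
  rw [eU_eq, ← sc_eq hs, Nat.cast_ofNat]
  refine LBB.one (LB.congr k (fun v _ => ?_) fun _ _ => rfl)
  unfold gZR
  ring

end

end Helper55.SH
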