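import Pool.Agent.Helper55.SH.LoBlk
import Pool.Agent.Helper43.CL.HGrows
import Pool.Agent.Helper49.RC.CellF

/-!
# Project RC, SHARP, cell engine (O3): the tables of a record

`gwF`: `10^21 ((m - lam) w f + (mu1 / 2) f)`, window 26; `pzF`: the product with `10^5 z0`, window 38.
`mkT R b s K H`: the tables of the blocks LO (computable); `okLo R b r s K H T`: kernel check.
`lo_z`, `lo_p`, `lo_r`: the three blocks of helper43's `HG_rows` in packed form.
-/

set_option autoImplicit false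

open MeasureTheory Set Filter Topology

namespace Helper55.SH

open Helper49.LT hiding sg
open Helper95.RC Helper95.SH Helper49.Sharp
open Helper56.RC (fc)
open Helper54.RC.Fast
open Helper87.RC (BM)
open Helper30.SH (cf fc_V bm_V cf_sup)
open Helper49.Cell (Rec zi bif_iff)
open Helper49.Cell.Rec (okT zsF fF wfF b2F b3F cfI cf_eq fcF_zs fcF_f fcF_wf fcF_b2 fcF_b3)
open Helper43.CL (Fm BR2 LoE)

/-! ### small tools -/

/-- all `j < n` -/
def allB (f : ℕ → Bool) : ℕ → Bool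
  | 0 => true
  | n + 1 => bif f n then allB f n else false

theorem allB_iff {f : ℕ → Bool} {n : ℕ} (h : allB f n = true) : ∀ j < n, f j = true := by
  induction n with
  | zero => intro j hj; omega
  | succ n ih =>
    unfold allB at h
    rw [bif_iff] at h
    intro j hj
    by_cases h1 : j = n
    · rw [h1]; exact h.1
    · exact ih h.2 j (by omega)

def eqF (x y : FP) : Bool :=
  bif Nat.beq x.N y.N then bif Nat.beq x.x y.x then Nat.beq x.y y.y else false else false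

theorem eqF_iff {x y : FP} (h : eqF x y = true) : x = y := by
  unfold eqF at h
  rw [bif_iff, bif_iff] at h
  obtain ⟨h1, h2, h3⟩ := h
  have h1 := Nat.eq_of_beq_eq_true h1
  have h2 := Nat.eq_of_beq_eq_true h2
  have h3 := Nat.eq_of_beq_eq_true h3
  cases x; cases y
  simp only at h1 h2 h3
  rw [h1, h2, h3]

/-- equality of integers -/
def eqI (x y : ℤ) : Bool := Nat.beq (Int.natAbs (Int.sub x y)) 0

theorem eqI_iff {x y : ℤ} (h : eqI x y = true) : x = y := by
  have h1 : (Int.sub x y).natAbs = 0 := Nat.eq_of_beq_eq_true h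
  have h2 : (x - y).natAbs = 0 := h1
  omega

/-- the digit as an integer (computable) -/
def dI (b k X : ℕ) : ℤ := Int.sub (Int.ofNat (dg b k X)) (Int.ofNat (Nat.pow 2 b))

theorem dI_eq (b k X : ℕ) : dI b k X = dz b k X := by
  show ((dg b k X : ℕ) : ℤ) - ((2 ^ b : ℕ) : ℤ) = _
  unfold dz
  push_cast
  rfl

/-- `⌊q x / D⌋` -/
def rd (q D : ℕ) (x : ℤ) : ℤ := Int.ediv (Int.mul (Int.ofNat q) x) (Int.ofNat D)

theorem rd_err {q D : ℕ} (hD : 0 < D) {x : ℤ} {y : ℝ} (hy : y = x / D) : |(q : ℝ) * y - rd q D x| ≤ 1 := by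
  have e : rd q D x = ((q : ℤ) * x) / (D : ℤ) := rfl
  have hD' : (0 : ℤ) < D := by exact_mod_cast hD
  have h1 := Int.emod_add_mul_ediv ((q : ℤ) * x) D
  have h2 := Int.emod_nonneg ((q : ℤ) * x) hD'.ne'
  have h3 := Int.emod_lt_of_pos ((q : ℤ) * x) hD'
  rw [e, hy]
  set k := ((q : ℤ) * x) / (D : ℤ) with hk
  set r := ((q : ℤ) * x) % (D : ℤ) with hr
  have hDr : (0 : ℝ) < D := by exact_mod_cast hD
  have h4 : (q : ℝ) * x = r + D * k := by exact_mod_cast h1.symm
  have h5 : (0 : ℝ) ≤ r := by exact_mod_cast h2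
  have h6 : (r : ℝ) < D := by exact_mod_cast h3
  have h7 : (q : ℝ) * (x / D) - k = r / D := by
    rw [← mul_div_assoc, h4]
    field_simp
    ring
  rw [h7, abs_of_nonneg (by positivity), div_le_one hDr]
  exact h6.le

/-! ### the functions -/

section

variable (R : Rec) (b r : ℕ)

/-- `10^21 ((m - lam) w f + (mu1 / 2) f)`, window 26 -/
def gwF : FP := addF b (smF b (Nat.mul 2 (Int.toNat (Int.sub R.m R.lam))) (wfF R b))
  (smF b (Nat.mul 100000 (Int.toNat R.mu1)) (padF b 2 (fF R b)))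
/-- the product with `10^5 z0` -/
def pzF : FP := mulF b (gwF R b) (zsF R b)

/-- the check of the functions -/
def okW : Bool :=
  bif okT R b r then
    bif decide (0 ≤ R.mu1 ∧ R.lam ≤ R.m) then
      bif oks b r (Nat.mul 2 (Int.toNat (Int.sub R.m R.lam))) (wfF R b) then
        bif oks b r (Nat.mul 100000 (Int.toNat R.mu1)) (padF b 2 (fF R b)) then
          bif oka b r (smF b (Nat.mul 2 (Int.toNat (Int.sub R.m R.lam))) (wfF R b))
              (smF b (Nat.mul 100000 (Int.toNat R.mu1)) (padF b 2 (fF R b))) then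
            okm b r (gwF R b) (zsF R b)
          else false
        else false
      else false
    else false
  else false

variable {R b r}

theorem gwF_sound (h : okW R b r = true) : wf b (gwF R b) = true ∧
    ∀ t, V b (gwF R b) t = 1000000000000000000000 *
      (((((R.m : ℝ) - R.lam) / 100000) * (R.par.w t * R.cb.f t) + (R.mu1 : ℝ) / 100000 / 2 * R.cb.f t : ℝ) : ℂ) := by
  unfold okW at h
  simp only [bif_iff] at h
  obtain ⟨h1, h2, h3, h4, h5, h6⟩ := h
  have h2 : 0 ≤ R.mu1 ∧ R.lam ≤ R.m := of_decide_eq_true h2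
  obtain ⟨a1, a2⟩ := Helper49.Cell.Rec.wfF_sound h1
  obtain ⟨b1, b2⟩ := Helper49.Cell.Rec.fF_sound h1
  have hr : r ≤ b + 1 := (Helper49.Cell.Rec.okT_iff.1 h1).1
  obtain ⟨p1, p2⟩ := padF_sound b 2 _ b1
  obtain ⟨s1, s2⟩ := smF_sound b r hr _ _ a1 h3
  obtain ⟨t1, t2⟩ := smF_sound b r hr _ _ p1 h4
  obtain ⟨u1, u2⟩ := addF_sound b r hr _ _ s1 t1 h5
  refine ⟨u1, fun t => ?_⟩
  show V b (addF b _ _) t = _
  rw [u2, s2, t2, p2, a2, b2]
  have e1 : ((Nat.mul 2 (Int.toNat (Int.sub R.m R.lam)) : ℕ) : ℂ) = 2 * ((R.m : ℂ) - R.lam) := by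
    have q1 : ((Int.toNat (Int.sub R.m R.lam) : ℕ) : ℤ) = R.m - R.lam := Int.toNat_of_nonneg (sub_nonneg.2 h2.2)
    have q2 : (((Int.toNat (Int.sub R.m R.lam) : ℕ) : ℤ) : ℂ) = ((R.m - R.lam : ℤ) : ℂ) := by rw [q1]
    show ((2 * (Int.toNat (Int.sub R.m R.lam)) : ℕ) : ℂ) = _
    push_cast at q2 ⊢
    rw [q2]
  have e2 : ((Nat.mul 100000 (Int.toNat R.mu1) : ℕ) : ℂ) = 100000 * (R.mu1 : ℂ) := by
    have q1 : ((Int.toNat R.mu1 : ℕ) : ℤ) = R.mu1 := Int.toNat_of_nonneg h2.1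
    have q2 : (((Int.toNat R.mu1 : ℕ) : ℤ) : ℂ) = ((R.mu1 : ℤ) : ℂ) := by rw [q1]
    show ((100000 * (Int.toNat R.mu1) : ℕ) : ℂ) = _
    push_cast at q2 ⊢
    rw [q2]
  rw [e1, e2]
  push_cast
  ring

theorem pzF_sound (h : okW R b r = true) :
    ∀ t, V b (pzF R b) t = V b (gwF R b) t * V b (zsF R b) t := by
  have g := gwF_sound h
  unfold okW at h
  simp only [bif_iff] at h
  obtain ⟨h1, h2, h3, h4, h5, h6⟩ := h
  have hr : r ≤ b + 1 := (Helper49.Cell.Rec.okT_iff.1 h1).1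
  exact (mulF_sound b r hr _ _ g.1 (Helper49.Cell.Rec.zsF_sound h1).1 h6).2

theorem okW_T (h : okW R b r = true) : okT R b r = true := by
  unfold okW at h
  simp only [bif_iff] at h
  exact h.1

end

/-! ### the cell data of a record -/

/-- the cell data belong to the record -/
structure IsRec (R : Rec) (c : CD) : Prop where
  P : c.P = R.par
  f : c.L.f = R.cb.f
  zs : c.L.zs = R.cb.z0
  b2 : c.L.b2s = R.cb.b2
  b3 : c.L.b3s = R.cb.b3
  p2 : c.L.p2 = 1
  p3 : c.L.p3 = 3 / 2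
  mu1 : c.mu1 = (R.mu1 : ℝ) / 100000

section

variable {R : Rec} {c : CD} {b r : ℕ}

theorem gw_fun (h : okW R b r = true) (n : ℤ) : cf b (gwF R b) n / 1000000000000000000000 =
    ((((R.m : ℝ) - R.lam) / 100000 : ℝ) : ℂ) * fc (fun t => ((R.par.w t * R.cb.f t : ℝ) : ℂ)) n +
      (((R.mu1 : ℝ) / 100000 / 2 : ℝ) : ℂ) * fc (fun t => ((R.cb.f t : ℝ) : ℂ)) n := by
  have g := gwF_sound h
  have h1 := okW_T h
  have k1 : ∀ n, fc (fun t => ((R.par.w t * R.cb.f t : ℝ) : ℂ)) n = cf b (wfF R b) n / 5000000000000000 := fcF_wf h1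
  have k2 : ∀ n, fc (fun t => ((R.cb.f t : ℝ) : ℂ)) n = cf b (fF R b) n / 50000000000 := fcF_f h1
  have e : V b (gwF R b) = fun t => (1000000000000000000000 * ((((R.m : ℝ) - R.lam) / 100000 : ℝ) : ℂ) /
      5000000000000000) * V b (wfF R b) t + (1000000000000000000000 * (((R.mu1 : ℝ) / 100000 / 2 : ℝ) : ℂ) /
      50000000000) * V b (fF R b) t := by
    funext t
    rw [g.2, (Helper49.Cell.Rec.wfF_sound h1).2, (Helper49.Cell.Rec.fF_sound h1).2]
    push_cast
    ring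
  obtain ⟨C1, B1⟩ := bm_V b (wfF R b)
  obtain ⟨C2, B2⟩ := bm_V b (fF R b)
  rw [k1, k2, ← fc_V b (gwF R b), e, Helper87.RC.fc_add (B1.cmul _) (B2.cmul _), Helper87.RC.fc_cmul,
    Helper87.RC.fc_cmul, fc_V, fc_V]
  ring

theorem Fm_eq (h : okW R b r = true) (i : IsRec R c) (n : ℤ) : Fm c n = cf b (gwF R b) n / 1000000000000000000000 := by
  rw [gw_fun h]
  unfold Fm Fw Fn
  rw [i.f, i.P, i.mu1]
  have e1 : R.par.m = (R.m : ℝ) / 100000 := rfl
  have e2 : R.par.lam = (R.lam : ℝ) / 100000 := rfl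
  rw [e1, e2]
  have e3 : (R.m : ℝ) / 100000 - (R.lam : ℝ) / 100000 = ((R.m : ℝ) - R.lam) / 100000 := by ring
  rw [e3]

theorem zs_eq (h : okW R b r = true) (i : IsRec R c) (n : ℤ) : fc c.L.zs n = cf b (zsF R b) n / 100000 := by
  rw [i.zs, fcF_zs (okW_T h)]

theorem b2_eq (h : okW R b r = true) (i : IsRec R c) (n : ℤ) :
    fc (fun t => (c.L.b2s t : ℂ)) n = cf b (b2F R b) n / 200000 := by
  rw [i.b2, fcF_b2 (okW_T h)]

theorem b3_eq (h : okW R b r = true) (i : IsRec R c) (n : ℤ) :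
    fc (fun t => (c.L.b3s t : ℂ)) n = cf b (b3F R b) n / 200000 := by
  rw [i.b3, fcF_b3 (okW_T h)]

/-- the constant of the rows `zA` -/
theorem conv_eq (h : okW R b r = true) (i : IsRec R c) (e : LoE c) {K : ℕ} (hK : ¬ Even K) (hK0 : c.K0 ≤ K) (k : ℕ) :
    ∑ d ∈ Finset.range (K + 1), Fm c (2 * ((k : ℤ) - d)) * fc c.L.zs (2 * d - K) =
      cf b (pzF R b) (2 * k - K) / 100000000000000000000000000 := by
  have hs : Sup K (fc c.L.zs) := Sup.mono hK0 c.L.sz
  have h1 : Sup K (fc (V b (zsF R b))) := by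
    intro n hn
    have := hs n hn
    rw [zs_eq h i] at this
    rw [fc_V]
    have h2 : (100000 : ℂ) ≠ 0 := by norm_num
    exact (div_eq_zero_iff.1 this).resolve_right h2
  obtain ⟨C1, B1⟩ := bm_V b (gwF R b)
  obtain ⟨C2, B2⟩ := bm_V b (zsF R b)
  have h2 := fc_prod B1 B2 h1 (2 * (k : ℤ) - K)
  have e2 : (fun t => V b (gwF R b) t * V b (zsF R b) t) = V b (pzF R b) := funext fun t => (pzF_sound h t).symm
  rw [e2, fc_V] at h2
  have hpar : ∀ n : ℤ, ¬ Even (n + K) → fc (V b (gwF R b)) (2 * (k : ℤ) - K - n) * fc (V b (zsF R b)) n = 0 := by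
    intro n hn
    have hn' : Even n := by
      rw [Int.even_add] at hn
      have hK' : ¬ Even (K : ℤ) := by rwa [Int.even_coe_nat]
      tauto
    have h3 := e.ez n hn'
    rw [zs_eq h i] at h3
    have h4 : (100000 : ℂ) ≠ 0 := by norm_num
    rw [fc_V, fc_V, (div_eq_zero_iff.1 h3).resolve_right h4, mul_zero]
  rw [par_sum K _ hpar] at h2
  rw [h2, Finset.sum_div]
  refine Finset.sum_congr rfl fun d _ => ?_
  rw [fc_V, fc_V, Fm_eq h i, zs_eq h i]
  have : 2 * (k : ℤ) - K - (2 * d - K) = 2 * (k - d) := by ring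
  rw [this]
  ring

end

/-! ### the tables -/

/-- the tables of the blocks LO -/
structure LoT where
  gw : FP
  pz : FP
  zs : FP
  f2 : FP
  f3 : FP
  tr : ℕ
  ti : ℕ
  ni : ℕ
  ca : ℕ
  cb : ℕ
  g2 : ℤ
  a2 : ℤ
  c2 : ℤ
  ca2 : ℕ
  cb2 : ℕ
  g3 : ℤ
  a3 : ℤ
  c3 : ℤ
  ca3 : ℕ
  cb3 : ℕ

/-- rounding of a pair -/
def rdP (q D : ℕ) (p : ℤ × ℤ) : ℤ × ℤ := (rd q D p.1, rd q D p.2)
/-- the entries of the table of `Fm` -/
def vF (b q K : ℕ) (gw : FP) (j : ℕ) : ℤ × ℤ :=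
  rdP q 1000000000000000000000 (cfI b gw (Int.mul 2 (Int.sub (Int.ofNat j) (Int.ofNat K))))
/-- the constants of the rows `zA` -/
def vA (b q K : ℕ) (pz : FP) (k : ℕ) : ℤ × ℤ :=
  rdP q 100000000000000000000000000 (cfI b pz (Int.sub (Int.mul 2 (Int.ofNat k)) (Int.ofNat K)))
/-- the constants of the rows `zB` -/
def dBz (x y : ℤ × ℤ) : ℤ × ℤ := (Int.add (Int.mul 2 x.1) y.1, Int.sub (Int.mul 2 x.2) y.2)
def vB (b q K : ℕ) (zs : FP) (k : ℕ) : ℤ × ℤ :=
  rdP q 200000 (dBz (cfI b zs (Int.sub (Int.mul 2 (Int.ofNat k)) (Int.ofNat K)))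
    (cfI b zs (Int.sub (Int.ofNat K) (Int.mul 2 (Int.ofNat k)))))

/-- numerators: `g0 = nG / (4·10^5)`, `g2 = (nA + i nC) / (2·10^10)`; `m2 = 2 p2` or `2 p3` -/
def nG (R : Rec) (m2 : ℤ) : ℤ := Int.mul m2 (Int.add (Int.mul 2 (Int.sub R.m R.lam)) R.mu1)
def nA (R : Rec) (m2 : ℤ) : ℤ := Int.mul m2 (Int.mul (Int.sub R.m R.lam) R.e1)
def nC (R : Rec) (m2 : ℤ) : ℤ := Int.mul m2 (Int.mul (Int.sub R.m R.lam) R.e2)
/-- `cv` of integers: `x` at `n`, `y` at `n - 2`, `z` at `n + 2` -/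
def cvN (G A C : ℤ) (x y z : ℤ × ℤ) : ℤ × ℤ :=
  (Int.add (Int.mul G x.1) (Int.add (Int.sub (Int.mul A y.1) (Int.mul C y.2)) (Int.add (Int.mul A z.1) (Int.mul C z.2))),
    Int.add (Int.mul G x.2) (Int.add (Int.add (Int.mul A y.2) (Int.mul C y.1)) (Int.sub (Int.mul A z.2) (Int.mul C z.1))))
/-- the constants of the rows `cv` -/
def vH (R : Rec) (b q : ℕ) (m2 : ℤ) (f : FP) (k : ℕ) : ℤ × ℤ :=
  rdP q 8000000000000000 (cvN (Int.mul 100000 (nG R m2)) (Int.mul 2 (nA R m2)) (Int.mul 2 (nC R m2))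
    (cfI b f (Int.mul 2 (Int.ofNat k))) (cfI b f (Int.sub (Int.mul 2 (Int.ofNat k)) 2))
    (cfI b f (Int.add (Int.mul 2 (Int.ofNat k)) 2)))
/-- the constants of the second factors -/
def dW (k : ℕ) (x : ℤ × ℤ) : ℤ × ℤ := bif Nat.beq k 0 then x else (Int.mul 2 x.1, Int.mul 2 x.2)
def vW (b q : ℕ) (f : FP) (k : ℕ) : ℤ × ℤ := rdP q 200000 (dW k (cfI b f (Int.mul 2 (Int.ofNat k))))

section

variable (R : Rec) (b r s K H : ℕ)

/-- packed list of pairs: the real parts, then the imaginary parts, with the opposite sign -/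
def pk2 (n : ℕ) (g : ℕ → ℤ × ℤ) : ℕ :=
  ct b n (pk b (fun j => Int.neg (g j).1) n) (pk b (fun j => Int.neg (g j).2) n)

/-- THE TABLES (rows at the scale `2 ^ (s + 1)`) -/
def mkT : LoT where
  gw := gwF R b
  pz := pzF R b
  zs := zsF R b
  f2 := b2F R b
  f3 := b3F R b
  tr := pk b (fun j => (vF b (Nat.pow 2 (Nat.succ s)) K (gwF R b) j).1) (Nat.succ (Nat.mul 2 K))
  ti := pk b (fun j => (vF b (Nat.pow 2 (Nat.succ s)) K (gwF R b) j).2) (Nat.succ (Nat.mul 2 K))
  ni := pk b (fun j => Int.neg (vF b (Nat.pow 2 (Nat.succ s)) K (gwF R b) j).2) (Nat.succ (Nat.mul 2 K))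
  ca := pk2 b (Nat.succ K) (vA b (Nat.pow 2 (Nat.succ s)) K (pzF R b))
  cb := pk2 b (Nat.succ K) (vB b (Nat.pow 2 (Nat.succ s)) K (zsF R b))
  g2 := rd (Nat.pow 2 (Nat.succ s)) 400000 (nG R 2)
  a2 := rd (Nat.pow 2 (Nat.succ s)) 20000000000 (nA R 2)
  c2 := rd (Nat.pow 2 (Nat.succ s)) 20000000000 (nC R 2)
  ca2 := pk2 b (Nat.succ H) (vH R b (Nat.pow 2 (Nat.succ s)) 2 (b2F R b))
  cb2 := pk2 b (Nat.succ H) (vW b (Nat.pow 2 (Nat.succ s)) (b2F R b))
  g3 := rd (Nat.pow 2 (Nat.succ s)) 400000 (nG R 3)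
  a3 := rd (Nat.pow 2 (Nat.succ s)) 20000000000 (nA R 3)
  c3 := rd (Nat.pow 2 (Nat.succ s)) 20000000000 (nC R 3)
  ca3 := pk2 b (Nat.succ H) (vH R b (Nat.pow 2 (Nat.succ s)) 3 (b3F R b))
  cb3 := pk2 b (Nat.succ H) (vW b (Nat.pow 2 (Nat.succ s)) (b3F R b))

variable (T : LoT)

/-- the digits of `X` are the negatives of the pairs `g` -/
def okP (n X : ℕ) (g : ℕ → ℤ × ℤ) : Bool :=
  bif allB (fun k => bif eqI (dI b k X) (Int.neg (g k).1) then eqI (dI b (Nat.add n k) X) (Int.neg (g k).2) else false) n then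
    Nat.blt X (Nat.pow (Nat.pow 2 (Nat.succ b)) (Nat.mul 2 n))
  else false

def okZt : Bool :=
  bif allB (fun j => bif eqI (dI b j T.tr) (vF b (Nat.pow 2 (Nat.succ s)) K T.gw j).1 then
      bif eqI (dI b j T.ti) (vF b (Nat.pow 2 (Nat.succ s)) K T.gw j).2 then
        eqI (dI b j T.ni) (Int.neg (dI b j T.ti)) else false else false) (Nat.succ (Nat.mul 2 K)) then
    bif okP b (Nat.succ K) T.ca (vA b (Nat.pow 2 (Nat.succ s)) K T.pz) then
      okP b (Nat.succ K) T.cb (vB b (Nat.pow 2 (Nat.succ s)) K T.zs)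
    else false
  else false

def okHt (m2 : ℤ) (f : FP) (g a c : ℤ) (ca cb : ℕ) : Bool :=
  bif eqI g (rd (Nat.pow 2 (Nat.succ s)) 400000 (nG R m2)) then
    bif eqI a (rd (Nat.pow 2 (Nat.succ s)) 20000000000 (nA R m2)) then
      bif eqI c (rd (Nat.pow 2 (Nat.succ s)) 20000000000 (nC R m2)) then
        bif Nat.blt (Nat.add (Nat.add g.natAbs (Nat.mul 3 a.natAbs)) (Nat.mul 3 c.natAbs)) (Nat.pow 2 b) then
          bif okP b (Nat.succ H) ca (vH R b (Nat.pow 2 (Nat.succ s)) m2 f) then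
            okP b (Nat.succ H) cb (vW b (Nat.pow 2 (Nat.succ s)) f)
          else false
        else false
      else false
    else false
  else false

/-- **THE CHECK** -/
def okLo : Bool :=
  bif okW R b r then
    bif Nat.ble (Nat.add s 3) b then
      bif eqF T.gw (gwF R b) then
        bif eqF T.pz (pzF R b) then
          bif eqF T.zs (zsF R b) then
            bif eqF T.f2 (b2F R b) then
              bif eqF T.f3 (b3F R b) then
                bif okZt b s K T then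
                  bif okHt R b s H 2 T.f2 T.g2 T.a2 T.c2 T.ca2 T.cb2 then
                    okHt R b s H 3 T.f3 T.g3 T.a3 T.c3 T.ca3 T.cb3
                  else false
                else false
              else false
            else false
          else false
        else false
      else false
    else false
  else false

end

/-! ### soundness -/

theorem zi_re (p : ℤ × ℤ) : (zi p).re = p.1 := by unfold zi; simp
theorem zi_im (p : ℤ × ℤ) : (zi p).im = p.2 := by unfold zi; simp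

theorem okP_iff {b n X : ℕ} {g : ℕ → ℤ × ℤ} (h : okP b n X g = true) :
    (∀ k < n, dz b k X = -(g k).1 ∧ dz b (n + k) X = -(g k).2) ∧ X < (2 ^ (b + 1)) ^ (2 * n) := by
  unfold okP at h
  rw [bif_iff] at h
  refine ⟨fun k hk => ?_, ?_⟩
  · have h1 := allB_iff h.1 k hk
    rw [bif_iff] at h1
    have h2 := eqI_iff h1.1
    have h3 := eqI_iff h1.2
    rw [dI_eq] at h2 h3
    exact ⟨h2, h3⟩
  · have h1 := h.2
    rw [blt_iff] at h1
    exact of_decide_eq_true h1

theorem okLo_iff {R : Rec} {b r s K H : ℕ} {T : LoT} (h : okLo R b r s K H T = true) :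
    okW R b r = true ∧ s + 3 ≤ b ∧ T.gw = gwF R b ∧ T.pz = pzF R b ∧ T.zs = zsF R b ∧ T.f2 = b2F R b ∧
      T.f3 = b3F R b ∧ okZt b s K T = true ∧ okHt R b s H 2 T.f2 T.g2 T.a2 T.c2 T.ca2 T.cb2 = true ∧
      okHt R b s H 3 T.f3 T.g3 T.a3 T.c3 T.ca3 T.cb3 = true := by
  unfold okLo at h
  simp only [bif_iff] at h
  obtain ⟨h1, h2, h3, h4, h5, h6, h7, h8, h9, h10⟩ := h
  exact ⟨h1, Nat.le_of_ble_eq_true h2, eqF_iff h3, eqF_iff h4, eqF_iff h5, eqF_iff h6, eqF_iff h7, h8, h9, h10⟩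

section

variable {R : Rec} {c : CD} {b r s K H : ℕ} {T : LoT}

theorem rd2 {s D : ℕ} (hD : 0 < D) {x : ℤ} {y : ℝ} (hy : y = x / D) :
    |2 ^ (s + 1) * y - rd (Nat.pow 2 (Nat.succ s)) D x| ≤ 1 := by
  have h := rd_err (q := Nat.pow 2 (Nat.succ s)) hD hy
  have e : ((Nat.pow 2 (Nat.succ s) : ℕ) : ℝ) = 2 ^ (s + 1) := by
    show ((2 ^ (s + 1) : ℕ) : ℝ) = _
    push_cast; rfl
  rwa [e] at h

theorem lo_ZTab (h : okLo R b r s K H T = true) (i : IsRec R c) (e : LoE c) (hK : ¬ Even K) (hK0 : c.K0 ≤ K) :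
    ZTab b s K (Fm c) (fc c.L.zs) T.tr T.ti T.ni T.ca T.cb := by
  obtain ⟨hW, hs, e1, e2, e3, -, -, hz, -, -⟩ := okLo_iff h
  unfold okZt at hz
  simp only [bif_iff] at hz
  obtain ⟨z1, z2, z3⟩ := hz
  have z1 := allB_iff z1
  have z2 := okP_iff z2
  have z3 := okP_iff z3
  have tab : ∀ j : ℤ, j ∈ Finset.Icc (-(K : ℤ)) K →
      dz b (j + K).toNat T.tr = rd (Nat.pow 2 (Nat.succ s)) 1000000000000000000000 (cfI b (gwF R b) (2 * j)).1 ∧
      dz b (j + K).toNat T.ti = rd (Nat.pow 2 (Nat.succ s)) 1000000000000000000000 (cfI b (gwF R b) (2 * j)).2 ∧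
      dz b (j + K).toNat T.ni = -dz b (j + K).toNat T.ti := by
    intro j hj
    rw [Finset.mem_Icc] at hj
    have h1 := z1 (j + K).toNat (by
      show (j + K).toNat < 2 * K + 1
      omega)
    simp only [bif_iff] at h1
    obtain ⟨a1, a2, a3⟩ := h1
    have a1 := eqI_iff a1
    have a2 := eqI_iff a2
    have a3 := eqI_iff a3
    rw [dI_eq] at a1 a2
    rw [dI_eq, dI_eq] at a3
    have t : Int.mul 2 (Int.sub (Int.ofNat (j + K).toNat) (Int.ofNat K)) = 2 * j := by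
      show 2 * ((((j + K).toNat : ℕ) : ℤ) - (K : ℤ)) = 2 * j
      omega
    unfold vF rdP at a1 a2
    rw [t, e1] at a1 a2
    exact ⟨a1, a2, a3⟩
  have re1 : ∀ (z : ℂ), (z / 1000000000000000000000).re = z.re / ((1000000000000000000000 : ℕ) : ℝ) := fun z => by
    rw [← Complex.div_natCast_re]; norm_num
  have im1 : ∀ (z : ℂ), (z / 1000000000000000000000).im = z.im / ((1000000000000000000000 : ℕ) : ℝ) := fun z => by
    rw [← Complex.div_natCast_im]; norm_num
  have re2 : ∀ (z : ℂ), (z / 100000000000000000000000000).re = z.re / ((100000000000000000000000000 : ℕ) : ℝ) :=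
    fun z => by rw [← Complex.div_natCast_re]; norm_num
  have im2 : ∀ (z : ℂ), (z / 100000000000000000000000000).im = z.im / ((100000000000000000000000000 : ℕ) : ℝ) :=
    fun z => by rw [← Complex.div_natCast_im]; norm_num
  have zBv : ∀ k : ℕ, k ≤ K → zB K (fc c.L.zs) k = zi (dBz (cfI b (zsF R b) (2 * k - K)) (cfI b (zsF R b) (K - 2 * k))) /
      ((200000 : ℕ) : ℂ) := by
    intro k _
    unfold zB
    rw [zs_eq hW i, zs_eq hW i, cf_eq, cf_eq]
    unfold zi dBz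
    have m1 : ∀ x y : ℤ, Int.mul x y = x * y := fun _ _ => rfl
    have m2 : ∀ x y : ℤ, Int.add x y = x + y := fun _ _ => rfl
    have m3 : ∀ x y : ℤ, Int.sub x y = x - y := fun _ _ => rfl
    simp only [m1, m2, m3]
    rw [map_div₀, map_add, map_mul, Complex.conj_I]
    simp only [map_intCast, map_ofNat]
    push_cast
    ring
  refine ⟨by omega, fun j hj => ?_, fun j hj => ?_, fun j hj => (tab j hj).2.2, fun k hk => ?_, fun k hk => ?_,
    fun k hk => ?_, fun k hk => ?_, z2.2, z3.2⟩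
  · rw [(tab j hj).1]
    refine rd2 (by norm_num) ?_
    rw [Fm_eq hW i, re1, cf_eq, zi_re]
  · rw [(tab j hj).2.1]
    refine rd2 (by norm_num) ?_
    rw [Fm_eq hW i, im1, cf_eq, zi_im]
  · rw [(z2.1 k (by show k < K + 1; omega)).1, conv_eq hW i e hK hK0, e2]
    have := rd2 (s := s) (D := 100000000000000000000000000) (by norm_num)
      (x := (cfI b (pzF R b) (2 * k - K)).1) (y := (cf b (pzF R b) (2 * k - K) / 100000000000000000000000000).re)
      (by rw [re2, cf_eq, zi_re])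
    push_cast
    exact this
  · rw [(z2.1 k (by show k < K + 1; omega)).2, conv_eq hW i e hK hK0, e2]
    have := rd2 (s := s) (D := 100000000000000000000000000) (by norm_num)
      (x := (cfI b (pzF R b) (2 * k - K)).2) (y := (cf b (pzF R b) (2 * k - K) / 100000000000000000000000000).im)
      (by rw [im2, cf_eq, zi_im])
    push_cast
    exact this
  · rw [(z3.1 k (by show k < K + 1; omega)).1, e3]
    have := rd2 (s := s) (D := 200000) (by norm_num)
      (x := (dBz (cfI b (zsF R b) (2 * k - K)) (cfI b (zsF R b) (K - 2 * k))).1) (y := (zB K (fc c.L.zs) k).re)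
      (by rw [zBv k hk, Complex.div_natCast_re, zi_re])
    push_cast
    exact this
  · rw [(z3.1 k (by show k < K + 1; omega)).2, e3]
    have := rd2 (s := s) (D := 200000) (by norm_num)
      (x := (dBz (cfI b (zsF R b) (2 * k - K)) (cfI b (zsF R b) (K - 2 * k))).2) (y := (zB K (fc c.L.zs) k).im)
      (by rw [zBv k hk, Complex.div_natCast_im, zi_im])
    push_cast
    exact this

/-- the value of `cvN` -/
theorem cvN_eq (G A C : ℤ) (x y z : ℤ × ℤ) : zi (cvN G A C x y z) =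
    (G : ℂ) * zi x + ((A : ℂ) + Complex.I * (C : ℂ)) * zi y + ((A : ℂ) - Complex.I * (C : ℂ)) * zi z := by
  unfold zi cvN
  have m1 : ∀ x y : ℤ, Int.mul x y = x * y := fun _ _ => rfl
  have m2 : ∀ x y : ℤ, Int.add x y = x + y := fun _ _ => rfl
  have m3 : ∀ x y : ℤ, Int.sub x y = x - y := fun _ _ => rfl
  simp only [m1, m2, m3]
  push_cast
  linear_combination (-(C : ℂ) * y.2 + (C : ℂ) * z.2) * Complex.I_mul_I

theorem lo_HTab (hs : s + 3 ≤ b) (i : IsRec R c) {m2 : ℤ} {p : ℝ} (hp : p = (m2 : ℝ) / 2)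
    {f : FP} {bs : ℝ → ℝ} (hb : ∀ n, fc (fun t => (bs t : ℂ)) n = cf b f n / 200000) {g a d : ℤ} {ca cb : ℕ}
    (h : okHt R b s H m2 f g a d ca cb = true) :
    HTab b s H (p * (c.P.m - c.P.lam) + p * (c.mu1 / 2)) (((p * (c.P.m - c.P.lam) : ℝ) : ℂ) * c.P.eta)
      (fc fun t => (bs t : ℂ)) g a d ca cb := by
  unfold okHt at h
  simp only [bif_iff] at h
  obtain ⟨h1, h2, h3, h4, h5, h6⟩ := h
  have h1 := eqI_iff h1
  have h2 := eqI_iff h2
  have h3 := eqI_iff h3
  rw [blt_iff] at h4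
  have h4 := of_decide_eq_true h4
  have h5 := okP_iff h5
  have h6 := okP_iff h6
  have q1 : R.par.m = (R.m : ℝ) / 100000 := rfl
  have q2 : R.par.lam = (R.lam : ℝ) / 100000 := rfl
  have q3 : R.par.eta = ((R.e1 : ℂ) + Complex.I * (R.e2 : ℂ)) / 100000 := rfl
  have G0 : p * (c.P.m - c.P.lam) + p * (c.mu1 / 2) = (nG R m2 : ℝ) / (400000 : ℕ) := by
    rw [i.mu1, i.P, q1, q2, hp]
    have : nG R m2 = m2 * (2 * (R.m - R.lam) + R.mu1) := rfl
    rw [this]
    push_cast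
    ring
  have G2 : ((p * (c.P.m - c.P.lam) : ℝ) : ℂ) * c.P.eta = ((nA R m2 : ℂ) + Complex.I * (nC R m2 : ℂ)) / (20000000000 : ℕ) := by
    rw [i.P, q1, q2, q3, hp]
    have e1 : nA R m2 = m2 * ((R.m - R.lam) * R.e1) := rfl
    have e2 : nC R m2 = m2 * ((R.m - R.lam) * R.e2) := rfl
    rw [e1, e2]
    push_cast
    ring
  have G2r : (((p * (c.P.m - c.P.lam) : ℝ) : ℂ) * c.P.eta).re = (nA R m2 : ℝ) / (20000000000 : ℕ) := by
    rw [G2, Complex.div_natCast_re]; simp
  have G2i : (((p * (c.P.m - c.P.lam) : ℝ) : ℂ) * c.P.eta).im = (nC R m2 : ℝ) / (20000000000 : ℕ) := by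
    rw [G2, Complex.div_natCast_im]; simp
  have cvv : ∀ k : ℕ, cv (p * (c.P.m - c.P.lam) + p * (c.mu1 / 2)) (((p * (c.P.m - c.P.lam) : ℝ) : ℂ) * c.P.eta)
      (fc fun t => (bs t : ℂ)) (2 * k) = zi (cvN (Int.mul 100000 (nG R m2)) (Int.mul 2 (nA R m2)) (Int.mul 2 (nC R m2))
        (cfI b f (2 * k)) (cfI b f (2 * k - 2)) (cfI b f (2 * k + 2))) / ((8000000000000000 : ℕ) : ℂ) := by
    intro k
    rw [cvN_eq]
    unfold cv
    rw [hb, hb, hb, G0, G2, cf_eq, cf_eq, cf_eq]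
    have m1 : ∀ x y : ℤ, Int.mul x y = x * y := fun _ _ => rfl
    simp only [m1]
    rw [map_div₀, map_add, map_mul, Complex.conj_I]
    simp only [map_intCast, map_natCast]
    push_cast
    ring
  refine ⟨hs, h4, ?_, ?_, ?_, fun k hk => ?_, fun k hk => ?_, fun k hk => ?_, fun k hk => ?_, h5.2, h6.2⟩
  · rw [h1]; exact rd2 (by norm_num) G0
  · rw [h2]; exact rd2 (by norm_num) G2r
  · rw [h3]; exact rd2 (by norm_num) G2i
  · rw [(h5.1 k (by show k < H + 1; omega)).1]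
    have := rd2 (s := s) (D := 8000000000000000) (by norm_num)
      (x := (cvN (Int.mul 100000 (nG R m2)) (Int.mul 2 (nA R m2)) (Int.mul 2 (nC R m2))
        (cfI b f (2 * k)) (cfI b f (2 * k - 2)) (cfI b f (2 * k + 2))).1) (y := (cv (p * (c.P.m - c.P.lam) +
          p * (c.mu1 / 2)) (((p * (c.P.m - c.P.lam) : ℝ) : ℂ) * c.P.eta) (fc fun t => (bs t : ℂ)) (2 * k)).re)
      (by rw [cvv k, Complex.div_natCast_re, zi_re])
    push_cast at this ⊢
    exact this
  · rw [(h5.1 k (by show k < H + 1; omega)).2]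
    have := rd2 (s := s) (D := 8000000000000000) (by norm_num)
      (x := (cvN (Int.mul 100000 (nG R m2)) (Int.mul 2 (nA R m2)) (Int.mul 2 (nC R m2))
        (cfI b f (2 * k)) (cfI b f (2 * k - 2)) (cfI b f (2 * k + 2))).2) (y := (cv (p * (c.P.m - c.P.lam) +
          p * (c.mu1 / 2)) (((p * (c.P.m - c.P.lam) : ℝ) : ℂ) * c.P.eta) (fc fun t => (bs t : ℂ)) (2 * k)).im)
      (by rw [cvv k, Complex.div_natCast_im, zi_im])
    push_cast at this ⊢
    exact this
  · rw [(h6.1 k (by show k < H + 1; omega)).1]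
    have := rd2 (s := s) (D := 200000) (by norm_num)
      (x := (dW k (cfI b f (2 * k))).1) (y := wt2 k * (fc (fun t => (bs t : ℂ)) (2 * k)).re) (by
        rw [hb, cf_eq]
        have e2 : (zi (cfI b f (2 * k)) / 200000).re = (zi (cfI b f (2 * k))).re / ((200000 : ℕ) : ℝ) := by
          rw [← Complex.div_natCast_re]; norm_num
        rw [e2, zi_re]
        unfold wt2 dW
        rw [beq_iff]
        by_cases h0 : k = 0
        · rw [if_pos h0, decide_eq_true h0, one_mul]; rfl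
        · rw [if_neg h0, decide_eq_false h0]
          show _ = ((2 * (cfI b f (2 * k)).1 : ℤ) : ℝ) / _
          push_cast; ring)
    push_cast at this ⊢
    exact this
  · rw [(h6.1 k (by show k < H + 1; omega)).2]
    have := rd2 (s := s) (D := 200000) (by norm_num)
      (x := (dW k (cfI b f (2 * k))).2) (y := wt2 k * (fc (fun t => (bs t : ℂ)) (2 * k)).im) (by
        rw [hb, cf_eq]
        have e2 : (zi (cfI b f (2 * k)) / 200000).im = (zi (cfI b f (2 * k))).im / ((200000 : ℕ) : ℝ) := by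
          rw [← Complex.div_natCast_im]; norm_num
        rw [e2, zi_im]
        unfold wt2 dW
        rw [beq_iff]
        by_cases h0 : k = 0
        · rw [if_pos h0, decide_eq_true h0, one_mul]; rfl
        · rw [if_neg h0, decide_eq_false h0]
          show _ = ((2 * (cfI b f (2 * k)).2 : ℤ) : ℝ) / _
          push_cast; ring)
    push_cast at this ⊢
    exact this

/-! ### the blocks of helper43's `HG_rows` -/

/-- **the block LO, `z` part** (error 1, scale `2 ^ (s + 1)`) -/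
theorem lo_z (h : okLo R b r s K H T = true) (i : IsRec R c) (e : LoE c) (hK : ¬ Even K) (hK0 : c.K0 ≤ K) :
    PBlk (nt K (2 * H)) (2 * (K + 1)) b (s + 1) 1 (AZ b K T.tr T.ti T.ni T.ca) (BZ b s K T.cb)
      (fun v => ∑ j ∈ Finset.range (K + 1), ((zA K (Fm c) (zes c (sV K v)) j).re * (zB K (zes c (sV K v)) j).re
          + (zA K (Fm c) (zes c (sV K v)) j).im * (zB K (zes c (sV K v)) j).im)) :=
  zBlk hK (lo_ZTab h i e hK hK0)

/-- **the block LO, `p` part** (to be taken with the weight `-1`) -/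
theorem lo_p (h : okLo R b r s K H T = true) (i : IsRec R c) :
    PBlk (nt K (2 * H)) (2 * (H + 1)) b (s + 1) 4 (AH b H (bp K) T.g2 T.a2 T.c2 T.ca2) (BH b s H (bp K) T.cb2)
      (fun v => BR2 H (c.L.p2 * (c.P.m - c.P.lam) + c.L.p2 * (c.mu1 / 2))
        (((c.L.p2 * (c.P.m - c.P.lam) : ℝ) : ℂ) * c.P.eta) (zep c (pV K (2 * H) v))) := by
  obtain ⟨hW, hs, -, -, -, e2, e3, -, h2, h3⟩ := okLo_iff h
  have hb : ∀ n, fc (fun t => (c.L.b2s t : ℂ)) n = cf b T.f2 n / 200000 := fun n => by rw [b2_eq hW i, e2]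
  exact hBlk (n := nt K (2 * H)) (by unfold bp; omega) (by unfold nt; omega)
    (lo_HTab hs i (by rw [i.p2]; norm_num) hb h2)

/-- **the block LO, `r` part** (to be taken with the weight `-1`) -/
theorem lo_r (h : okLo R b r s K H T = true) (i : IsRec R c) :
    PBlk (nt K (2 * H)) (2 * (H + 1)) b (s + 1) 4 (AH b H (br K (2 * H)) T.g3 T.a3 T.c3 T.ca3)
      (BH b s H (br K (2 * H)) T.cb3)
      (fun v => BR2 H (c.L.p3 * (c.P.m - c.P.lam) + c.L.p3 * (c.mu1 / 2))
        (((c.L.p3 * (c.P.m - c.P.lam) : ℝ) : ℂ) * c.P.eta) (zer c (rV K (2 * H) v))) := by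
  obtain ⟨hW, hs, -, -, -, e2, e3, -, h2, h3⟩ := okLo_iff h
  have hb : ∀ n, fc (fun t => (c.L.b3s t : ℂ)) n = cf b T.f3 n / 200000 := fun n => by rw [b3_eq hW i, e3]
  exact hBlk (n := nt K (2 * H)) (by unfold br bp; omega) (by unfold nt br; omega)
    (lo_HTab hs i (by rw [i.p3]; norm_num) hb h3)

end

/-! ### the parities -/

theorem cA_par (k : ℤ) (l : List (ℤ × ℤ)) (n : ℤ) (h : n % 2 ≠ k % 2) : zi (Helper49.Cell.cA k l n) = 0 := by
  induction l generalizing k with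
  | nil => simp [zi, Helper49.Cell.cA]
  | cons p l ih =>
    have a1 : ∀ x y : ℤ, Int.add x y = x + y := fun _ _ => rfl
    have hn : n ≠ k := fun h1 => h (by rw [h1])
    have h2 := ih (k + 2) (by omega)
    unfold zi at h2 ⊢
    simp only [Helper49.Cell.cA, hn, decide_false, cond_false, a1, zero_add]
    exact h2

theorem IsRec.loE {R : Rec} {c : CD} (i : IsRec R c) : LoE c := by
  refine ⟨fun n hn => ?_, fun n hn => ?_, fun n hn => ?_⟩
  · rw [i.zs, Helper49.Cell.Rec.fc_z0, cA_par _ _ _ (by obtain ⟨a, ha⟩ := hn; omega), zero_div]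
  · rw [i.b2, Helper49.Cell.Rec.fc_b2, cA_par _ _ _ (by rw [Int.even_iff] at hn; omega),
      cA_par _ _ _ (by rw [Int.even_iff] at hn; omega), if_neg (by rintro rfl; exact hn Even.zero)]
    simp
  · rw [i.b3, Helper49.Cell.Rec.fc_b3, cA_par _ _ _ (by rw [Int.even_iff] at hn; omega),
      cA_par _ _ _ (by rw [Int.even_iff] at hn; omega), if_neg (by rintro rfl; exact hn Even.zero)]
    simp

end Helper55.SH
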