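import Pool.Agent.Helper54.RC.Fast4

/-!
# Packed lists of integers (helper54's format: digits in base `2 ^ (b + 1)`, offset `2 ^ b`)

`dz b k X`: the `k`-th digit as an integer. `pk b g n`: the packed list `g 0, …, g (n-1)`. `pkS b n l`: the packed list
with the entries of the sparse list `l` (positions, values). `ct b n X Y`: concatenation. `win` (helper54): window.
-/

set_option autoImplicit false

namespace Helper55.SH

open Helper54.RC.Fast

/-- the `k`-th digit as an integer -/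
def dz (b k X : ℕ) : ℤ := (dg b k X : ℤ) - 2 ^ b

theorem dg_eq (b k X : ℕ) : dg b k X = X / (2 ^ (b + 1)) ^ k % 2 ^ (b + 1) := by
  show X >>> ((b + 1) * k) % 2 ^ (b + 1) = _
  rw [Nat.shiftRight_eq_div_pow, pow_mul]

theorem dg_win (b k n j W : ℕ) (h : j < n) : dg b j (win b k n W) = dg b (k + j) W := by
  rw [dg_eq, dg_eq, win_eq]
  set B := 2 ^ (b + 1) with hB
  obtain ⟨m, rfl⟩ : ∃ m, n = j + 1 + m := ⟨n - (j + 1), by omega⟩
  have e1 : B ^ (j + 1 + m) = B ^ j * (B * B ^ m) := by rw [pow_add, pow_succ]; ring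
  rw [e1, Nat.mod_mul_right_div_self, Nat.div_div_eq_div_mul, ← pow_add, Nat.mod_mul_right_mod]

theorem win_lt (b k n W : ℕ) : win b k n W < (2 ^ (b + 1)) ^ n := by
  rw [win_eq]
  exact Nat.mod_lt _ (by positivity)

/-- concatenation: the `n` digits of `X`, then the digits of `Y` -/
def ct (b n X Y : ℕ) : ℕ := Nat.add X (Nat.shiftLeft Y (Nat.mul (Nat.succ b) n))

theorem ct_eq (b n X Y : ℕ) : ct b n X Y = X + (2 ^ (b + 1)) ^ n * Y := by
  show X + Y <<< ((b + 1) * n) = _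
  rw [Nat.shiftLeft_eq, pow_mul, mul_comm Y]

theorem dg_ct_lo (b n X Y k : ℕ) (hk : k < n) : dg b k (ct b n X Y) = dg b k X := by
  rw [dg_eq, dg_eq, ct_eq]
  set B := 2 ^ (b + 1) with hB
  obtain ⟨m, rfl⟩ : ∃ m, n = k + 1 + m := ⟨n - (k + 1), by omega⟩
  have e1 : B ^ (k + 1 + m) * Y = B ^ k * (B * (B ^ m * Y)) := by rw [pow_add, pow_succ]; ring
  rw [e1, Nat.add_mul_div_left _ _ (by positivity), Nat.add_mul_mod_self_left]

theorem dg_ct_hi (b n X Y k : ℕ) (hX : X < (2 ^ (b + 1)) ^ n) : dg b (n + k) (ct b n X Y) = dg b k Y := by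
  rw [dg_eq, dg_eq, ct_eq]
  set B := 2 ^ (b + 1) with hB
  rw [pow_add, ← Nat.div_div_eq_div_mul, Nat.add_mul_div_left _ _ (by positivity), Nat.div_eq_of_lt hX, zero_add]

theorem ct_lt (b n m X Y : ℕ) (hX : X < (2 ^ (b + 1)) ^ n) (hY : Y < (2 ^ (b + 1)) ^ m) :
    ct b n X Y < (2 ^ (b + 1)) ^ (n + m) := by
  rw [ct_eq, pow_add (2 ^ (b + 1)) n m]
  calc X + (2 ^ (b + 1)) ^ n * Y < (2 ^ (b + 1)) ^ n + (2 ^ (b + 1)) ^ n * Y := Nat.add_lt_add_right hX _
    _ = (2 ^ (b + 1)) ^ n * (Y + 1) := by ring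
    _ ≤ _ := Nat.mul_le_mul_left _ hY

/-- the packed list `g 0, …, g (n-1)` -/
def pk (b : ℕ) (g : ℕ → ℤ) : ℕ → ℕ
  | 0 => 0
  | n + 1 => Nat.add (pk b g n)
      (Nat.shiftLeft (Int.toNat (Int.add (g n) (Int.ofNat (Nat.pow 2 b)))) (Nat.mul (Nat.succ b) n))

theorem pk_succ (b : ℕ) (g : ℕ → ℤ) (n : ℕ) :
    pk b g (n + 1) = pk b g n + (2 ^ (b + 1)) ^ n * (g n + ((2 ^ b : ℕ) : ℤ)).toNat := ct_eq b n _ _

theorem tn_lt {b : ℕ} {x : ℤ} (h : x.natAbs < 2 ^ b) : (x + ((2 ^ b : ℕ) : ℤ)).toNat < 2 ^ (b + 1) := by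
  rw [pow_succ]
  generalize 2 ^ b = P at *
  omega

theorem tn_eq {b : ℕ} {x : ℤ} (h : x.natAbs < 2 ^ b) :
    (((x + ((2 ^ b : ℕ) : ℤ)).toNat : ℕ) : ℤ) = x + ((2 ^ b : ℕ) : ℤ) := by
  generalize 2 ^ b = P at *
  omega

theorem pk_lt {b : ℕ} {g : ℕ → ℤ} {n : ℕ} (h : ∀ j < n, (g j).natAbs < 2 ^ b) : pk b g n < (2 ^ (b + 1)) ^ n := by
  induction n with
  | zero => exact Nat.one_pos
  | succ n ih =>
    rw [pk_succ, pow_succ]
    have h1 := ih fun j hj => h j (by omega)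
    have h2 := tn_lt (h n (by omega))
    calc pk b g n + (2 ^ (b + 1)) ^ n * (g n + ((2 ^ b : ℕ) : ℤ)).toNat
        < (2 ^ (b + 1)) ^ n + (2 ^ (b + 1)) ^ n * (g n + ((2 ^ b : ℕ) : ℤ)).toNat := Nat.add_lt_add_right h1 _
      _ = (2 ^ (b + 1)) ^ n * ((g n + ((2 ^ b : ℕ) : ℤ)).toNat + 1) := by ring
      _ ≤ _ := Nat.mul_le_mul_left _ h2

theorem dz_pk {b : ℕ} {g : ℕ → ℤ} {n k : ℕ} (h : ∀ j < n, (g j).natAbs < 2 ^ b) (hk : k < n) :
    dz b k (pk b g n) = g k := by
  induction n with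
  | zero => omega
  | succ n ih =>
    have h' : ∀ j < n, (g j).natAbs < 2 ^ b := fun j hj => h j (by omega)
    have e : pk b g (n + 1) = ct b n (pk b g n) (g n + ((2 ^ b : ℕ) : ℤ)).toNat := rfl
    by_cases hkn : k < n
    · rw [← ih h' hkn]
      unfold dz
      rw [e, dg_ct_lo _ _ _ _ _ hkn]
    · obtain rfl : k = n := by omega
      unfold dz
      have h1 := dg_ct_hi b k (pk b g k) (g k + ((2 ^ b : ℕ) : ℤ)).toNat 0 (pk_lt h')
      rw [add_zero] at h1
      rw [e, h1, dg_eq, pow_zero, Nat.div_one, Nat.mod_eq_of_lt (tn_lt (h k hk)), tn_eq (h k hk)]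
      push_cast
      ring

theorem pk_congr {b : ℕ} {g h : ℕ → ℤ} {n : ℕ} (e : ∀ j < n, g j = h j) : pk b g n = pk b h n := by
  induction n with
  | zero => rfl
  | succ n ih => rw [pk_succ, pk_succ, ih fun j hj => e j (by omega), e n (by omega)]

/-- the value of the packed list -/
theorem pk_val {b : ℕ} {g : ℕ → ℤ} {n : ℕ} (h : ∀ j < n, (g j).natAbs < 2 ^ b) :
    (pk b g n : ℤ) = ∑ c ∈ Finset.range n, g c * ((2 ^ (b + 1)) ^ c : ℕ) + (of b n : ℤ) := by
  rw [of_eq]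
  have key : ∀ n, gs (2 ^ (b + 1)) (n + 1) = gs (2 ^ (b + 1)) n + (2 ^ (b + 1)) ^ n := by
    intro n
    have := gs_add (2 ^ (b + 1)) n 1
    rw [this]
    simp [gs]
  induction n with
  | zero => simp [pk, gs]
  | succ n ih =>
    have e1 := ih fun j hj => h j (by omega)
    have e2 := tn_eq (h n (by omega))
    rw [pk_succ, Finset.sum_range_succ, key, Nat.cast_add, Nat.cast_mul, e2, e1]
    push_cast
    ring

/-- the coefficient of a sparse list -/
def coef : List (ℕ × ℤ) → ℕ → ℤ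
  | [], _ => 0
  | p :: l, c => (if p.1 = c then p.2 else 0) + coef l c

/-- the value of a sparse list (entries at positions `≥ n` are dropped) -/
def spS (b n : ℕ) : List (ℕ × ℤ) → ℤ
  | [] => Int.ofNat (of b n)
  | p :: l => bif Nat.ble n p.1 then spS b n l
      else Int.add (Int.mul p.2 (Int.ofNat (Nat.pow 2 (Nat.mul (Nat.succ b) p.1)))) (spS b n l)

/-- the packed sparse list -/
def pkS (b n : ℕ) (l : List (ℕ × ℤ)) : ℕ := Int.toNat (spS b n l)

theorem spS_eq (b n : ℕ) (l : List (ℕ × ℤ)) :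
    spS b n l = ∑ c ∈ Finset.range n, coef l c * ((2 ^ (b + 1)) ^ c : ℕ) + (of b n : ℤ) := by
  induction l with
  | nil => simp [spS, coef]
  | cons p l ih =>
    by_cases h : n ≤ p.1
    · have e : spS b n (p :: l) = spS b n l := by
        have h1 : Nat.ble n p.1 = true := Nat.ble_eq ▸ h
        have h2 : spS b n (p :: l) = bif Nat.ble n p.1 then spS b n l
          else Int.add (Int.mul p.2 (Int.ofNat (Nat.pow 2 (Nat.mul (Nat.succ b) p.1)))) (spS b n l) := rfl
        rw [h2, h1]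
        rfl
      rw [e, ih]
      congr 1
      refine Finset.sum_congr rfl fun c hc => ?_
      rw [Finset.mem_range] at hc
      have : coef (p :: l) c = coef l c := by
        show (if p.1 = c then p.2 else 0) + coef l c = _
        rw [if_neg (by omega), zero_add]
      rw [this]
    · have e : spS b n (p :: l) = p.2 * ((2 ^ ((b + 1) * p.1) : ℕ) : ℤ) + spS b n l := by
        have h1 : Nat.ble n p.1 = false := by
          cases h2 : Nat.ble n p.1 with
          | false => rfl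
          | true => exact absurd (Nat.le_of_ble_eq_true h2) h
        have h2 : spS b n (p :: l) = bif Nat.ble n p.1 then spS b n l
          else Int.add (Int.mul p.2 (Int.ofNat (Nat.pow 2 (Nat.mul (Nat.succ b) p.1)))) (spS b n l) := rfl
        rw [h2, h1]
        rfl
      rw [e, ih]
      have e2 : ∑ c ∈ Finset.range n, coef (p :: l) c * (((2 ^ (b + 1)) ^ c : ℕ) : ℤ) =
          ∑ c ∈ Finset.range n, (if p.1 = c then p.2 else 0) * (((2 ^ (b + 1)) ^ c : ℕ) : ℤ) +
          ∑ c ∈ Finset.range n, coef l c * (((2 ^ (b + 1)) ^ c : ℕ) : ℤ) := by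
        rw [← Finset.sum_add_distrib]
        refine Finset.sum_congr rfl fun c _ => ?_
        rw [← add_mul]
        rfl
      have e3 : ∑ c ∈ Finset.range n, (if p.1 = c then p.2 else 0) * (((2 ^ (b + 1)) ^ c : ℕ) : ℤ) =
          p.2 * ((2 ^ ((b + 1) * p.1) : ℕ) : ℤ) := by
        rw [Finset.sum_eq_single p.1]
        · rw [if_pos rfl, pow_mul]
        · intro c _ hc
          rw [if_neg (fun h => hc h.symm), zero_mul]
        · intro h3
          exact absurd (Finset.mem_range.2 (by omega)) h3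
      rw [e2, e3]
      ring

theorem pkS_eq {b n : ℕ} {l : List (ℕ × ℤ)} (h : ∀ c < n, (coef l c).natAbs < 2 ^ b) :
    pkS b n l = pk b (coef l) n := by
  have h1 := pk_val h
  unfold pkS
  rw [spS_eq, ← h1]
  rfl

theorem dz_pkS {b n k : ℕ} {l : List (ℕ × ℤ)} (h : ∀ c < n, (coef l c).natAbs < 2 ^ b) (hk : k < n) :
    dz b k (pkS b n l) = coef l k := by rw [pkS_eq h, dz_pk h hk]

theorem pkS_lt {b n : ℕ} {l : List (ℕ × ℤ)} (h : ∀ c < n, (coef l c).natAbs < 2 ^ b) :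
    pkS b n l < (2 ^ (b + 1)) ^ n := by rw [pkS_eq h]; exact pk_lt h

/-- bound of the coefficients of a sparse list -/
def sN : List (ℕ × ℤ) → ℕ
  | [] => 0
  | p :: l => Nat.add p.2.natAbs (sN l)

theorem coef_le (l : List (ℕ × ℤ)) (c : ℕ) : (coef l c).natAbs ≤ sN l := by
  induction l with
  | nil => simp [coef, sN]
  | cons p l ih =>
    have e : sN (p :: l) = p.2.natAbs + sN l := rfl
    rw [e]
    unfold coef
    split_ifs
    · exact (Int.natAbs_add_le _ _).trans (by omega)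
    · rw [zero_add]; omega

end Helper55.SH
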