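import Pool.Agent.Helper55.SH.LoForm
import Pool.Agent.Helper55.SH.Pk
import Pool.Agent.Helper64.SH.Mu

/-!
# Project RC, SHARP, cell engine (O3): integer rows of the forms `LQ`, `BQ`

`LR_s`: a row of the coordinates of `s`. `LR_zA_re`, …: the rows of `LQ_rows`. `LR_h`: a row of the coordinates of a
hermitian array. `LR_bA_re`, …: the rows of `BQ_rows`.
-/

set_option autoImplicit false

open MeasureTheory Set Filter Topology

namespace Helper55.SH

open Helper49.LT hiding sg
open Helper95.RC Helper95.SH Helper49.Sharp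
open Helper56.RC (fc)
open Pool.Agent.Helper64.SH (sum_pairs hrho ihr h_sum hrho_err ci ci_re ci_im)

/-! ### rows of `s` -/

/-- the integer row of `s` with constant `c0` and the coefficients `gr + i gi` -/
def sRow (K : ℕ) (c0 : ℤ) (gr gi : ℕ → ℤ) (i : ℕ) : ℤ :=
  if i = 0 then c0 else if i < bp K then (if (i - 1) % 2 = 0 then gr ((i - 1) / 2) else -gi ((i - 1) / 2)) else 0

theorem sV_odd {K : ℕ} (hK : ¬ Even K) (v : ℕ → ℝ) {d : ℕ} (hd : d ≤ K) :
    sV K v (2 * d - K) = (v (1 + 2 * d) : ℂ) + Complex.I * (v (2 + 2 * d) : ℂ) := by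
  unfold sV
  rw [if_neg]
  · have t : (2 * (d : ℤ) - K + K).toNat = 2 * d := by omega
    rw [t]
  · obtain ⟨k, hk⟩ := Nat.not_even_iff_odd.1 hK
    push Not
    refine ⟨?_, by rw [Finset.mem_Icc]; omega⟩
    rw [Int.not_even_iff_odd]
    exact ⟨(d : ℤ) - k - 1, by omega⟩

/-- **a row of `s`** -/
theorem LR_s {K L : ℕ} (hK : ¬ Even K) {q e : ℝ} {G : ℕ → ℂ} {x0 : ℝ} {c0 : ℤ} {gr gi : ℕ → ℤ} (he : 0 ≤ e)
    (h0 : |q * x0 - c0| ≤ e) (hr : ∀ d ≤ K, |q * (G d).re - gr d| ≤ e) (hi : ∀ d ≤ K, |q * (G d).im - gi d| ≤ e) :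
    LR (nt K L) q (fun v => (∑ d ∈ Finset.range (K + 1), G d * sV K v (2 * d - K)).re + x0)
      (sRow K c0 gr gi) e := by
  refine ⟨fun i => if i = 0 then x0 else if i < bp K then
      (if (i - 1) % 2 = 0 then (G ((i - 1) / 2)).re else -(G ((i - 1) / 2)).im) else 0, fun v hv => ?_, fun i hi' => ?_⟩
  · have e : nt K L = 1 + 2 * (K + 1) + ((L + 1) + (L + 1)) := by unfold nt bp; ring
    rw [e, Finset.sum_range_add, Finset.sum_range_add, Finset.sum_range_one]
    have z : ∑ x ∈ Finset.range ((L + 1) + (L + 1)), (fun i : ℕ => if i = 0 then x0 else if i < bp K then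
        (if (i - 1) % 2 = 0 then (G ((i - 1) / 2)).re else -(G ((i - 1) / 2)).im) else 0) (1 + 2 * (K + 1) + x) *
          v (1 + 2 * (K + 1) + x) = 0 := by
      apply Finset.sum_eq_zero
      intro x _
      beta_reduce
      unfold bp
      rw [if_neg (by omega), if_neg (by omega), zero_mul]
    rw [z, add_zero, sum_pairs]
    beta_reduce
    rw [if_pos rfl, hv, mul_one, add_comm]
    congr 1
    rw [Complex.re_sum]
    refine Finset.sum_congr rfl fun d hd => ?_
    rw [Finset.mem_range] at hd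
    rw [sV_odd hK v (by omega)]
    unfold bp
    rw [if_neg (by omega), if_pos (by omega), if_pos (by omega), if_neg (by omega), if_pos (by omega), if_neg (by omega)]
    have t1 : (1 + 2 * d - 1) / 2 = d := by omega
    have t2 : (1 + (2 * d + 1) - 1) / 2 = d := by omega
    have t3 : 1 + (2 * d + 1) = 2 + 2 * d := by omega
    rw [t1, t2, t3]
    simp only [Complex.mul_re, Complex.add_re, Complex.add_im, Complex.mul_im, Complex.I_re, Complex.I_im,
      Complex.ofReal_re, Complex.ofReal_im]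
    ring
  · unfold sRow
    beta_reduce
    by_cases c1 : i = 0
    · rw [if_pos c1, if_pos c1]; exact h0
    rw [if_neg c1, if_neg c1]
    by_cases c2 : i < bp K
    · rw [if_pos c2, if_pos c2]
      have hd : (i - 1) / 2 ≤ K := by unfold bp at c2; omega
      by_cases c3 : (i - 1) % 2 = 0
      · rw [if_pos c3, if_pos c3]; exact hr _ hd
      · rw [if_neg c3, if_neg c3]
        have := hi _ hd
        rw [← abs_neg] at this
        refine le_trans (le_of_eq ?_) this
        congr 1
        push_cast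
        ring
    · rw [if_neg c2, if_neg c2]
      simpa using he

/-! ### the rows of `LQ` -/

section

variable {K L : ℕ} {q e : ℝ} {F zc : ℤ → ℂ} {c : ℕ}

theorem LR_zA_re (hK : ¬ Even K) (he : 0 ≤ e) {TR TI : ℤ → ℤ} {C0 : ℤ} (hc : c ≤ K)
    (hR : ∀ j : ℤ, j ∈ Finset.Icc (-(K : ℤ)) K → |q * (F (2 * j)).re - TR j| ≤ e)
    (hI : ∀ j : ℤ, j ∈ Finset.Icc (-(K : ℤ)) K → |q * (F (2 * j)).im - TI j| ≤ e)
    (hC : |q * (∑ d ∈ Finset.range (K + 1), F (2 * ((c : ℤ) - d)) * zc (2 * d - K)).re - C0| ≤ e) :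
    LR (nt K L) q (fun v => (zA K F (fun n => sV K v n - zc n) c).re)
      (sRow K (-C0) (fun d => TR (c - d)) (fun d => TI (c - d))) e := by
  have h := LR_s (L := L) hK (q := q) (e := e) (G := fun d => F (2 * ((c : ℤ) - d)))
    (x0 := -(∑ d ∈ Finset.range (K + 1), F (2 * ((c : ℤ) - d)) * zc (2 * d - K)).re) (c0 := -C0)
    (gr := fun d => TR (c - d)) (gi := fun d => TI (c - d)) he ?_ ?_ ?_
  · refine h.congr (fun v _ => ?_) (fun i _ => rfl)
    unfold zA
    rw [← Complex.neg_re, ← Complex.add_re, ← Finset.sum_neg_distrib, ← Finset.sum_add_distrib]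
    congr 1
    refine Finset.sum_congr rfl fun d _ => ?_
    ring
  · rw [← abs_neg]
    refine le_trans (le_of_eq ?_) hC
    congr 1
    push_cast
    ring
  · intro d hd
    exact hR _ (by rw [Finset.mem_Icc]; omega)
  · intro d hd
    exact hI _ (by rw [Finset.mem_Icc]; omega)

theorem LR_zA_im (hK : ¬ Even K) (he : 0 ≤ e) {TR TI : ℤ → ℤ} {C0 : ℤ} (hc : c ≤ K)
    (hR : ∀ j : ℤ, j ∈ Finset.Icc (-(K : ℤ)) K → |q * (F (2 * j)).re - TR j| ≤ e)
    (hI : ∀ j : ℤ, j ∈ Finset.Icc (-(K : ℤ)) K → |q * (F (2 * j)).im - TI j| ≤ e)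
    (hC : |q * (∑ d ∈ Finset.range (K + 1), F (2 * ((c : ℤ) - d)) * zc (2 * d - K)).im - C0| ≤ e) :
    LR (nt K L) q (fun v => (zA K F (fun n => sV K v n - zc n) c).im)
      (sRow K (-C0) (fun d => TI (c - d)) (fun d => -TR (c - d))) e := by
  have h := LR_s (L := L) hK (q := q) (e := e) (G := fun d => -Complex.I * F (2 * ((c : ℤ) - d)))
    (x0 := -(∑ d ∈ Finset.range (K + 1), F (2 * ((c : ℤ) - d)) * zc (2 * d - K)).im) (c0 := -C0)
    (gr := fun d => TI (c - d)) (gi := fun d => -TR (c - d)) he ?_ ?_ ?_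
  · refine h.congr (fun v _ => ?_) (fun i _ => rfl)
    unfold zA
    have e1 : ∑ d ∈ Finset.range (K + 1), -Complex.I * F (2 * ((c : ℤ) - d)) * sV K v (2 * d - K) =
        -Complex.I * ∑ d ∈ Finset.range (K + 1), F (2 * ((c : ℤ) - d)) * sV K v (2 * d - K) := by
      rw [Finset.mul_sum]
      exact Finset.sum_congr rfl fun d _ => by ring
    have e2 : ∀ x : ℂ, (-Complex.I * x).re = x.im := fun x => by simp
    rw [e1, e2, ← Complex.neg_im, ← Complex.add_im, ← Finset.sum_neg_distrib, ← Finset.sum_add_distrib]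
    congr 1
    refine Finset.sum_congr rfl fun d _ => ?_
    ring
  · rw [← abs_neg]
    refine le_trans (le_of_eq ?_) hC
    congr 1
    push_cast
    ring
  · intro d hd
    have e2 : ∀ x : ℂ, (-Complex.I * x).re = x.im := fun x => by simp
    rw [e2]
    exact hI _ (by rw [Finset.mem_Icc]; omega)
  · intro d hd
    have e2 : ∀ x : ℂ, (-Complex.I * x).im = -x.re := fun x => by simp
    rw [e2, ← abs_neg]
    refine le_trans (le_of_eq ?_) (hR (c - d) (by rw [Finset.mem_Icc]; omega))
    congr 1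
    push_cast
    ring

theorem LR_zB_re (hK : ¬ Even K) (he : 0 ≤ e) {q1 q2 C0 : ℤ} (hc : c ≤ K) (h1 : |q - q1| ≤ e) (h2 : |q * (1 / 2) - q2| ≤ e)
    (h12 : |q * (3 / 2) - (q1 + q2 : ℤ)| ≤ e)
    (hC : |q * (zB K zc c).re - C0| ≤ e) :
    LR (nt K L) q (fun v => (zB K (fun n => sV K v n - zc n) c).re)
      (sRow K (-C0) (fun d => (if d = c then q1 else 0) + (if d = K - c then q2 else 0)) (fun _ => 0)) e := by
  have h := LR_s (L := L) hK (q := q) (e := e)
    (G := fun d => (if d = c then 1 else 0) + (if d = K - c then 1 / 2 else 0))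
    (x0 := -(zB K zc c).re) (c0 := -C0)
    (gr := fun d => (if d = c then q1 else 0) + (if d = K - c then q2 else 0)) (gi := fun _ => 0) he ?_ ?_ ?_
  · refine h.congr (fun v _ => ?_) (fun i _ => rfl)
    have e1 : ∑ d ∈ Finset.range (K + 1), ((if d = c then (1 : ℂ) else 0) + (if d = K - c then 1 / 2 else 0)) *
        sV K v (2 * d - K) = sV K v (2 * c - K) + 1 / 2 * sV K v (2 * ((K - c : ℕ) : ℤ) - K) := by
      simp_rw [add_mul, Finset.sum_add_distrib, ite_mul, zero_mul, one_mul]
      rw [Finset.sum_ite_eq', Finset.sum_ite_eq', if_pos (Finset.mem_range.2 (by omega)),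
        if_pos (Finset.mem_range.2 (by omega))]
    rw [e1]
    have e2 : 2 * ((K - c : ℕ) : ℤ) - K = K - 2 * c := by omega
    rw [e2]
    have e3 : ∀ x : ℂ, (1 / 2 * x).re = 1 / 2 * x.re := fun x => by
      rw [show (1 / 2 : ℂ) = ((1 / 2 : ℝ) : ℂ) by push_cast; ring, Complex.re_ofReal_mul]
    unfold zB
    rw [Complex.add_re, Complex.add_re, Complex.add_re, e3, e3, e3, Complex.conj_re, Complex.conj_re, Complex.sub_re,
      Complex.sub_re]
    ring
  · rw [← abs_neg]
    refine le_trans (le_of_eq ?_) hC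
    congr 1
    push_cast
    ring
  · intro d _
    by_cases a1 : d = c
    · by_cases a2 : d = K - c
      · rw [if_pos a1, if_pos a2, if_pos a1, if_pos a2]
        have : ((1 : ℂ) + 1 / 2).re = 3 / 2 := by norm_num
        rw [this]
        exact h12
      · rw [if_pos a1, if_neg a2, if_pos a1, if_neg a2]
        simpa using h1
    · by_cases a2 : d = K - c
      · rw [if_neg a1, if_pos a2, if_neg a1, if_pos a2]
        have : ((0 : ℂ) + 1 / 2).re = 1 / 2 := by norm_num
        rw [this, zero_add]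
        exact h2
      · rw [if_neg a1, if_neg a2, if_neg a1, if_neg a2]
        simpa using he
  · intro d _
    have : ((if d = c then (1 : ℂ) else 0) + (if d = K - c then 1 / 2 else 0)).im = 0 := by
      split_ifs <;> norm_num
    rw [this]
    simpa using he

theorem LR_zB_im (hK : ¬ Even K) (he : 0 ≤ e) {q1 q2 C0 : ℤ} (hc : c ≤ K) (h1 : |q - q1| ≤ e) (h2 : |q * (1 / 2) - q2| ≤ e)
    (h12 : |q * (1 / 2) - (q1 - q2 : ℤ)| ≤ e)
    (hC : |q * (zB K zc c).im - C0| ≤ e) :
    LR (nt K L) q (fun v => (zB K (fun n => sV K v n - zc n) c).im)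
      (sRow K (-C0) (fun _ => 0) (fun d => (if d = c then -q1 else 0) + (if d = K - c then q2 else 0))) e := by
  have h := LR_s (L := L) hK (q := q) (e := e)
    (G := fun d => -Complex.I * ((if d = c then 1 else 0) - (if d = K - c then 1 / 2 else 0)))
    (x0 := -(zB K zc c).im) (c0 := -C0)
    (gr := fun _ => 0) (gi := fun d => (if d = c then -q1 else 0) + (if d = K - c then q2 else 0)) he ?_ ?_ ?_
  · refine h.congr (fun v _ => ?_) (fun i _ => rfl)
    have e1 : ∑ d ∈ Finset.range (K + 1), -Complex.I * ((if d = c then (1 : ℂ) else 0) - (if d = K - c then 1 / 2 else 0)) *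
        sV K v (2 * d - K) = -Complex.I * (sV K v (2 * c - K) - 1 / 2 * sV K v (2 * ((K - c : ℕ) : ℤ) - K)) := by
      simp_rw [mul_assoc]
      rw [← Finset.mul_sum]
      congr 1
      simp_rw [sub_mul, Finset.sum_sub_distrib, ite_mul, zero_mul, one_mul]
      rw [Finset.sum_ite_eq', Finset.sum_ite_eq', if_pos (Finset.mem_range.2 (by omega)),
        if_pos (Finset.mem_range.2 (by omega))]
    rw [e1]
    have e2 : 2 * ((K - c : ℕ) : ℤ) - K = K - 2 * c := by omega
    rw [e2]
    have e3 : ∀ x : ℂ, (1 / 2 * x).im = 1 / 2 * x.im := fun x => by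
      rw [show (1 / 2 : ℂ) = ((1 / 2 : ℝ) : ℂ) by push_cast; ring, Complex.im_ofReal_mul]
    have e4 : ∀ x : ℂ, (-Complex.I * x).re = x.im := fun x => by simp
    unfold zB
    rw [e4]
    simp only [Complex.add_im, Complex.sub_im, e3, Complex.conj_im]
    ring
  · rw [← abs_neg]
    refine le_trans (le_of_eq ?_) hC
    congr 1
    push_cast
    ring
  · intro d _
    have : (-Complex.I * ((if d = c then (1 : ℂ) else 0) - (if d = K - c then 1 / 2 else 0))).re = 0 := by
      split_ifs <;> simp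
    rw [this]
    simpa using he
  · intro d _
    by_cases a1 : d = c
    · by_cases a2 : d = K - c
      · rw [if_pos a1, if_pos a2, if_pos a1, if_pos a2]
        have : (-Complex.I * ((1 : ℂ) - 1 / 2)).im = -(1 / 2) := by norm_num
        rw [this, ← abs_neg]
        refine le_trans (le_of_eq ?_) h12
        congr 1
        push_cast
        ring
      · rw [if_pos a1, if_neg a2, if_pos a1, if_neg a2]
        have : (-Complex.I * ((1 : ℂ) - 0)).im = -1 := by norm_num
        rw [this, ← abs_neg]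
        refine le_trans (le_of_eq ?_) h1
        congr 1
        push_cast
        ring
    · by_cases a2 : d = K - c
      · rw [if_neg a1, if_pos a2, if_neg a1, if_pos a2]
        have : (-Complex.I * ((0 : ℂ) - 1 / 2)).im = 1 / 2 := by norm_num
        rw [this, zero_add]
        exact h2
      · rw [if_neg a1, if_neg a2, if_neg a1, if_neg a2]
        have : (-Complex.I * ((0 : ℂ) - 0)).im = 0 := by norm_num
        rw [this]
        simpa using he

end

/-! ### rows of a hermitian array -/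

/-- the integer row of a hermitian array -/
def hRow (L base : ℕ) (c0 : ℤ) (g : ℕ → ℤ) (i : ℕ) : ℤ :=
  if i = 0 then c0 else if base ≤ i ∧ i ≤ base + L then g (i - base) else 0

theorem LR_h {n L base : ℕ} (hL : Even L) (hb : 0 < base) (hn : base + L < n) {q e : ℝ} {A : ℤ → ℂ} {x0 : ℝ} {c0 : ℤ}
    {AR AI : ℤ → ℤ} (he : 0 ≤ e) (h0 : |q * x0 - c0| ≤ 2 * e)
    (hA : ∀ m ∈ Finset.Icc (-(L : ℤ)) L, ‖(q : ℂ) * A m - ci (AR m) (AI m)‖ ≤ e) :
    LR n q (fun v => (∑ m ∈ Finset.Icc (-(L : ℤ)) L, hV L base v m * (starRingEnd ℂ) (A m)).re + x0)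
      (hRow L base c0 (ihr AR AI)) (2 * e) := by
  refine ⟨fun i => if i = 0 then x0 else if base ≤ i ∧ i ≤ base + L then hrho A (i - base) else 0, fun v hv => ?_,
    fun i hi' => ?_⟩
  · obtain ⟨b', rfl⟩ : ∃ b', base = b' + 1 := ⟨base - 1, by omega⟩
    obtain ⟨m, rfl⟩ : ∃ m, n = b' + 1 + (L + 1) + m := ⟨n - (b' + 1 + (L + 1)), by omega⟩
    rw [Finset.sum_range_add, Finset.sum_range_add, Finset.sum_range_succ']
    have z1 : ∑ k ∈ Finset.range b', (fun i : ℕ => if i = 0 then x0 else if b' + 1 ≤ i ∧ i ≤ b' + 1 + L then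
        hrho A (i - (b' + 1)) else 0) (k + 1) * v (k + 1) = 0 := by
      apply Finset.sum_eq_zero
      intro k hk
      rw [Finset.mem_range] at hk
      beta_reduce
      rw [if_neg (by omega), if_neg (by omega), zero_mul]
    have z2 : ∑ x ∈ Finset.range m, (fun i : ℕ => if i = 0 then x0 else if b' + 1 ≤ i ∧ i ≤ b' + 1 + L then
        hrho A (i - (b' + 1)) else 0) (b' + 1 + (L + 1) + x) * v (b' + 1 + (L + 1) + x) = 0 := by
      apply Finset.sum_eq_zero
      intro k _
      beta_reduce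
      rw [if_neg (by omega), if_neg (by omega), zero_mul]
    rw [z1, z2, add_zero, zero_add]
    beta_reduce
    rw [if_pos rfl, hv, mul_one, add_comm, h_sum hL le_rfl]
    congr 1
    refine Finset.sum_congr rfl fun j hj => ?_
    rw [Finset.mem_range] at hj
    rw [if_neg (by omega), if_pos (by omega)]
    have t1 : b' + 1 + j - (b' + 1) = j := by omega
    rw [t1]
  · unfold hRow
    beta_reduce
    by_cases c1 : i = 0
    · rw [if_pos c1, if_pos c1]; exact h0
    rw [if_neg c1, if_neg c1]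
    by_cases c2 : base ≤ i ∧ i ≤ base + L
    · rw [if_pos c2, if_pos c2]
      exact hrho_err hL he hA _ (by omega)
    · rw [if_neg c2, if_neg c2]
      simpa using he

/-- the array of `cv` at `2 c` -/
noncomputable def cvA (g0 : ℝ) (g2 : ℂ) (c : ℕ) (m : ℤ) : ℂ :=
  if m = 2 * c then (g0 : ℂ) else if m = 2 * c - 2 then (starRingEnd ℂ) g2 else if m = 2 * c + 2 then g2 else 0

theorem sum_ite1 {S : Finset ℤ} {f : ℤ → ℂ} (hf : ∀ n, n ∉ S → f n = 0) (k : ℤ) (x : ℂ) :
    ∑ m ∈ S, f m * (if m = k then x else 0) = f k * x := by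
  by_cases h : k ∈ S
  · rw [Finset.sum_eq_single k]
    · rw [if_pos rfl]
    · intro m _ hm
      rw [if_neg hm, mul_zero]
    · intro h2
      exact absurd h h2
  · rw [hf k h, zero_mul]
    apply Finset.sum_eq_zero
    intro m hm
    have h3 : m ≠ k := by
      rintro rfl
      exact h hm
    rw [if_neg h3, mul_zero]

theorem cv_sum {L base : ℕ} (g0 : ℝ) (g2 : ℂ) (c : ℕ) (v : ℕ → ℝ) :
    ∑ m ∈ Finset.Icc (-(L : ℤ)) L, hV L base v m * (starRingEnd ℂ) (cvA g0 g2 c m) = cv g0 g2 (hV L base v) (2 * c) := by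
  have e : ∀ m : ℤ, (starRingEnd ℂ) (cvA g0 g2 c m) = (if m = 2 * c then (g0 : ℂ) else 0) +
      (if m = 2 * c - 2 then g2 else 0) + (if m = 2 * c + 2 then (starRingEnd ℂ) g2 else 0) := by
    intro m
    unfold cvA
    by_cases h1 : m = 2 * c
    · rw [if_pos h1, if_pos h1, if_neg (by omega), if_neg (by omega), Complex.conj_ofReal, add_zero, add_zero]
    · by_cases h2 : m = 2 * c - 2
      · rw [if_neg h1, if_neg h1, if_pos h2, if_pos h2, if_neg (by omega), Complex.conj_conj, zero_add, add_zero]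
      · by_cases h3 : m = 2 * c + 2
        · rw [if_neg h1, if_neg h1, if_neg h2, if_neg h2, if_pos h3, if_pos h3, zero_add, zero_add]
        · rw [if_neg h1, if_neg h1, if_neg h2, if_neg h2, if_neg h3, if_neg h3, map_zero, zero_add, zero_add]
  simp_rw [e, mul_add, Finset.sum_add_distrib]
  rw [sum_ite1 (hV_sup L base v), sum_ite1 (hV_sup L base v), sum_ite1 (hV_sup L base v)]
  unfold cv
  ring

/-- the integer array -/
def cvR (g a : ℤ) (c : ℕ) (m : ℤ) : ℤ :=
  if m = 2 * c then g else if m = 2 * c - 2 then a else if m = 2 * c + 2 then a else 0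
def cvI (b : ℤ) (c : ℕ) (m : ℤ) : ℤ :=
  if m = 2 * c then 0 else if m = 2 * c - 2 then -b else if m = 2 * c + 2 then b else 0

theorem nrm_two {x y ε : ℝ} (hx : |x| ≤ ε) (hy : |y| ≤ ε) : ‖(x : ℂ) + Complex.I * (y : ℂ)‖ ≤ 2 * ε := by
  refine (norm_add_le _ _).trans ?_
  rw [norm_mul, Complex.norm_I, one_mul, Complex.norm_real, Complex.norm_real, Real.norm_eq_abs, Real.norm_eq_abs]
  linarith

theorem re_add_I (z : ℂ) : z = (z.re : ℂ) + Complex.I * (z.im : ℂ) := by
  rw [mul_comm]; exact (Complex.re_add_im z).symm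

theorem cv_err {q ε g0 : ℝ} {g2 : ℂ} {g a b : ℤ} (hε : 0 ≤ ε) (h0 : |q * g0 - g| ≤ ε) (h1 : |q * g2.re - a| ≤ ε)
    (h2 : |q * g2.im - b| ≤ ε) (c : ℕ) (m : ℤ) : ‖(q : ℂ) * cvA g0 g2 c m - ci (cvR g a c m) (cvI b c m)‖ ≤ 2 * ε := by
  unfold cvA cvR cvI ci
  by_cases k1 : m = 2 * c
  · simp only [if_pos k1]
    have e : (q : ℂ) * (g0 : ℂ) - ((g : ℂ) + Complex.I * ((0 : ℤ) : ℂ)) = ((q * g0 - g : ℝ) : ℂ) + Complex.I * ((0 : ℝ) : ℂ) := by
      push_cast; ring
    rw [e]
    exact nrm_two h0 (by simpa using hε)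
  · by_cases k2 : m = 2 * c - 2
    · simp only [if_neg k1, if_pos k2]
      have e : (q : ℂ) * (starRingEnd ℂ) g2 - ((a : ℂ) + Complex.I * ((-b : ℤ) : ℂ)) =
          ((q * g2.re - a : ℝ) : ℂ) + Complex.I * ((-(q * g2.im - b) : ℝ) : ℂ) := by
        conv_lhs => rw [re_add_I g2]
        simp only [map_add, map_mul, Complex.conj_I, Complex.conj_ofReal]
        push_cast; ring
      rw [e]
      exact nrm_two h1 (by rwa [abs_neg])
    · by_cases k3 : m = 2 * c + 2
      · simp only [if_neg k1, if_neg k2, if_pos k3]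
        have e : (q : ℂ) * g2 - ((a : ℂ) + Complex.I * (b : ℂ)) =
            ((q * g2.re - a : ℝ) : ℂ) + Complex.I * ((q * g2.im - b : ℝ) : ℂ) := by
          conv_lhs => rw [re_add_I g2]
          push_cast; ring
        rw [e]
        exact nrm_two h1 h2
      · simp only [if_neg k1, if_neg k2, if_neg k3]
        simp
        linarith

theorem cv_sub (g0 : ℝ) (g2 : ℂ) (u w : ℤ → ℂ) (n : ℤ) :
    cv g0 g2 (fun m => u m - w m) n = cv g0 g2 u n - cv g0 g2 w n := by unfold cv; ring

section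

variable {n L base : ℕ} {q ε g0 : ℝ} {g2 : ℂ} {g a b : ℤ} {bc : ℤ → ℂ} {c : ℕ}

theorem LR_bA_re (hL : Even L) (hb : 0 < base) (hn : base + L < n) (hε : 0 ≤ ε) (h0 : |q * g0 - g| ≤ ε)
    (h1 : |q * g2.re - a| ≤ ε) (h2 : |q * g2.im - b| ≤ ε) {C0 : ℤ} (hC : |q * (cv g0 g2 bc (2 * c)).re - C0| ≤ ε) :
    LR n q (fun v => (cv g0 g2 (fun m => hV L base v m - bc m) (2 * c)).re)
      (hRow L base (-C0) (ihr (cvR g a c) (cvI b c))) (4 * ε) := by
  have h := LR_h (n := n) hL hb hn (q := q) (e := 2 * ε) (A := cvA g0 g2 c) (x0 := -(cv g0 g2 bc (2 * c)).re)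
    (c0 := -C0) (AR := cvR g a c) (AI := cvI b c) (by linarith) ?_ (fun m _ => cv_err hε h0 h1 h2 c m)
  · refine (h.congr (fun v _ => ?_) (fun i _ => rfl)).mono (by linarith)
    rw [cv_sub, cv_sum, Complex.sub_re]
    ring
  · rw [← abs_neg]
    refine le_trans (le_of_eq ?_) (hC.trans (by linarith))
    congr 1
    push_cast
    ring

theorem LR_bA_im (hL : Even L) (hb : 0 < base) (hn : base + L < n) (hε : 0 ≤ ε) (h0 : |q * g0 - g| ≤ ε)
    (h1 : |q * g2.re - a| ≤ ε) (h2 : |q * g2.im - b| ≤ ε) {C0 : ℤ} (hC : |q * (cv g0 g2 bc (2 * c)).im - C0| ≤ ε) :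
    LR n q (fun v => (cv g0 g2 (fun m => hV L base v m - bc m) (2 * c)).im)
      (hRow L base (-C0) (ihr (fun m => -cvI b c m) (cvR g a c))) (4 * ε) := by
  have h := LR_h (n := n) hL hb hn (q := q) (e := 2 * ε) (A := fun m => Complex.I * cvA g0 g2 c m)
    (x0 := -(cv g0 g2 bc (2 * c)).im)
    (c0 := -C0) (AR := fun m => -cvI b c m) (AI := cvR g a c) (by linarith) ?_ (fun m _ => ?_)
  · refine (h.congr (fun v _ => ?_) (fun i _ => rfl)).mono (by linarith)
    have e1 : ∑ m ∈ Finset.Icc (-(L : ℤ)) L, hV L base v m * (starRingEnd ℂ) (Complex.I * cvA g0 g2 c m) =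
        -Complex.I * cv g0 g2 (hV L base v) (2 * c) := by
      rw [← cv_sum, Finset.mul_sum]
      refine Finset.sum_congr rfl fun m _ => ?_
      rw [map_mul, Complex.conj_I]
      ring
    have e4 : ∀ x : ℂ, (-Complex.I * x).re = x.im := fun x => by simp
    rw [cv_sub, e1, e4, Complex.sub_im]
    ring
  · rw [← abs_neg]
    refine le_trans (le_of_eq ?_) (hC.trans (by linarith))
    congr 1
    push_cast
    ring
  · have e := cv_err hε h0 h1 h2 c m
    have e2 : (q : ℂ) * (Complex.I * cvA g0 g2 c m) - ci (-cvI b c m) (cvR g a c m) =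
        Complex.I * ((q : ℂ) * cvA g0 g2 c m - ci (cvR g a c m) (cvI b c m)) := by
      unfold ci
      push_cast
      have := Complex.I_mul_I
      linear_combination (cvI b c m : ℂ) * this
    rw [e2, norm_mul, Complex.norm_I, one_mul]
    exact e

theorem LR_bB_re (hL : Even L) (hb : 0 < base) (hn : base + L < n) (hε : 0 ≤ ε) {w : ℤ}
    (hw : |q * wt2 c - w| ≤ ε) {C0 : ℤ} (hC : |q * (wt2 c * (bc (2 * c)).re) - C0| ≤ ε) :
    LR n q (fun v => wt2 c * ((fun m => hV L base v m - bc m) (2 * c)).re)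
      (hRow L base (-C0) (ihr (cvR w 0 c) (cvI 0 c))) (4 * ε) := by
  have h := LR_bA_re (n := n) (g0 := wt2 c) (g2 := 0) (g := w) (a := 0) (b := 0) (bc := bc) (c := c) hL hb hn hε hw
    (by simpa using hε) (by simpa using hε) (C0 := C0) ?_
  · refine h.congr (fun v _ => ?_) (fun i _ => rfl)
    unfold cv
    simp only [zero_mul, map_zero, add_zero]
    rw [Complex.re_ofReal_mul]
  · unfold cv
    simp only [zero_mul, map_zero, add_zero]
    rw [Complex.re_ofReal_mul]
    exact hC

theorem LR_bB_im (hL : Even L) (hb : 0 < base) (hn : base + L < n) (hε : 0 ≤ ε) {w : ℤ}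
    (hw : |q * wt2 c - w| ≤ ε) {C0 : ℤ} (hC : |q * (wt2 c * (bc (2 * c)).im) - C0| ≤ ε) :
    LR n q (fun v => wt2 c * ((fun m => hV L base v m - bc m) (2 * c)).im)
      (hRow L base (-C0) (ihr (fun m => -cvI 0 c m) (cvR w 0 c))) (4 * ε) := by
  have h := LR_bA_im (n := n) (g0 := wt2 c) (g2 := 0) (g := w) (a := 0) (b := 0) (bc := bc) (c := c) hL hb hn hε hw
    (by simpa using hε) (by simpa using hε) (C0 := C0) ?_
  · refine h.congr (fun v _ => ?_) (fun i _ => rfl)
    unfold cv
    simp only [zero_mul, map_zero, add_zero]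
    rw [Complex.im_ofReal_mul]
  · unfold cv
    simp only [zero_mul, map_zero, add_zero]
    rw [Complex.im_ofReal_mul]
    exact hC

end

/-! ### the rows as functions of `c` -/

/-- the sparse lists (position `c`) of the coordinate `j` of a hermitian array -/
def lRe (g a b : ℤ) (j : ℕ) : List (ℕ × ℤ) :=
  bif Nat.beq j 0 then [(0, g), (1, a)]
  else bif Nat.beq (Nat.mod j 2) 1 then
    [(Nat.div (Nat.succ j) 2, g), (Nat.succ (Nat.div (Nat.succ j) 2), a), (Nat.pred (Nat.div (Nat.succ j) 2), a),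
      (0, bif Nat.beq j 1 then a else 0)]
  else [(Nat.pred (Nat.div j 2), b), (Nat.succ (Nat.div j 2), Int.neg b), (0, bif Nat.beq j 2 then b else 0)]

def lIm (g a b : ℤ) (j : ℕ) : List (ℕ × ℤ) :=
  bif Nat.beq j 0 then [(1, b)]
  else bif Nat.beq (Nat.mod j 2) 1 then
    [(Nat.pred (Nat.div (Nat.succ j) 2), Int.neg b), (Nat.succ (Nat.div (Nat.succ j) 2), b),
      (0, bif Nat.beq j 1 then b else 0)]
  else [(Nat.div j 2, g), (Nat.succ (Nat.div j 2), a), (Nat.pred (Nat.div j 2), a),
      (0, bif Nat.beq j 2 then Int.neg a else 0)]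

theorem beq_iff (x y : ℕ) : Nat.beq x y = decide (x = y) := by
  by_cases h : x = y
  · subst h; simp
  · rw [decide_eq_false h]
    cases h2 : Nat.beq x y with
    | false => rfl
    | true => exact absurd (Nat.eq_of_beq_eq_true h2) h

/-- `cvR` at an even nonnegative index -/
theorem cvR_nat (g a : ℤ) (c m : ℕ) : cvR g a c (2 * m) =
    (if m = c then g else 0) + ((if m + 1 = c then a else 0) + (if m = c + 1 then a else 0)) := by
  unfold cvR
  by_cases h1 : m = c
  · subst h1
    rw [if_pos rfl, if_pos rfl, if_neg (by omega), if_neg (by omega)]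
    ring
  by_cases h2 : m + 1 = c
  · subst h2
    rw [if_neg (by omega), if_pos (by push_cast; ring), if_neg h1, if_pos rfl, if_neg (by omega)]
    ring
  by_cases h3 : m = c + 1
  · subst h3
    rw [if_neg (by omega), if_neg (by omega), if_pos (by push_cast; ring), if_neg h1, if_neg h2, if_pos rfl]
    ring
  rw [if_neg (by omega), if_neg (by omega), if_neg (by omega), if_neg h1, if_neg h2, if_neg h3]
  ring

/-- `cvR` at an even negative index -/
theorem cvR_neg (g a : ℤ) (c m : ℕ) : cvR g a c (-(2 * ((m + 1 : ℕ) : ℤ))) =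
    if 0 = c then (if m = 0 then a else 0) else 0 := by
  unfold cvR
  rw [if_neg (by omega)]
  by_cases h1 : 0 = c
  · subst h1
    rw [if_pos rfl]
    by_cases h2 : m = 0
    · subst h2
      rw [if_pos (by norm_num), if_pos rfl]
    · rw [if_neg (by omega), if_neg (by omega), if_neg h2]
  · rw [if_neg h1, if_neg (by omega), if_neg (by omega)]

theorem cvI_nat (b : ℤ) (c m : ℕ) : cvI b c (2 * m) =
    (if m + 1 = c then -b else 0) + (if m = c + 1 then b else 0) := by
  unfold cvI
  by_cases h1 : m = c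
  · subst h1
    rw [if_pos rfl, if_neg (by omega), if_neg (by omega)]
    ring
  by_cases h2 : m + 1 = c
  · subst h2
    rw [if_neg (by omega), if_pos (by push_cast; ring), if_pos rfl, if_neg (by omega)]
    ring
  by_cases h3 : m = c + 1
  · subst h3
    rw [if_neg (by omega), if_neg (by omega), if_pos (by push_cast; ring), if_neg h2, if_pos rfl]
    ring
  rw [if_neg (by omega), if_neg (by omega), if_neg (by omega), if_neg h2, if_neg h3]
  ring

theorem cvI_neg (b : ℤ) (c m : ℕ) : cvI b c (-(2 * ((m + 1 : ℕ) : ℤ))) =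
    if 0 = c then (if m = 0 then -b else 0) else 0 := by
  unfold cvI
  rw [if_neg (by omega)]
  by_cases h1 : 0 = c
  · subst h1
    rw [if_pos rfl]
    by_cases h2 : m = 0
    · subst h2
      rw [if_pos (by norm_num), if_pos rfl]
    · rw [if_neg (by omega), if_neg (by omega), if_neg h2]
  · rw [if_neg h1, if_neg (by omega), if_neg (by omega)]

theorem ite_neg' (p : Prop) [Decidable p] (x : ℤ) : (if p then -x else 0) = -(if p then x else 0) := by
  by_cases h : p
  · rw [if_pos h, if_pos h]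
  · rw [if_neg h, if_neg h, neg_zero]

theorem bif_ite (p : Prop) [Decidable p] (x y : ℤ) : (bif decide p then x else y) = if p then x else y := by
  by_cases h : p
  · rw [if_pos h, decide_eq_true h]; rfl
  · rw [if_neg h, decide_eq_false h]; rfl

/-- the index `0`, an odd index, an even index -/
theorem par3 (j : ℕ) : j = 0 ∨ (∃ t, j = 2 * t + 1) ∨ ∃ t, j = 2 * t + 2 := by
  rcases Nat.eq_zero_or_pos j with h | h
  · exact Or.inl h
  · rcases Nat.even_or_odd' j with ⟨k, hk | hk⟩
    · exact Or.inr (Or.inr ⟨k - 1, by omega⟩)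
    · exact Or.inr (Or.inl ⟨k, hk⟩)

/-- the four shapes of `ihr` -/
theorem ihr_odd (A B : ℤ → ℤ) (t : ℕ) : ihr A B (2 * t + 1) = A (2 * ((t + 1 : ℕ) : ℤ)) + A (-(2 * ((t + 1 : ℕ) : ℤ))) := by
  unfold ihr
  rw [if_neg (by omega), if_pos (by omega)]
  have : (((2 * t + 1 : ℕ) : ℤ) + 1) = 2 * ((t + 1 : ℕ) : ℤ) := by push_cast; ring
  rw [this]

theorem ihr_even (A B : ℤ → ℤ) (t : ℕ) : ihr A B (2 * t + 2) = B (2 * ((t + 1 : ℕ) : ℤ)) - B (-(2 * ((t + 1 : ℕ) : ℤ))) := by
  unfold ihr
  rw [if_neg (by omega), if_neg (by omega)]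
  have : ((2 * t + 2 : ℕ) : ℤ) = 2 * ((t + 1 : ℕ) : ℤ) := by push_cast; ring
  rw [this]

theorem lRe_eq (g a b : ℤ) (c j : ℕ) : ihr (cvR g a c) (cvI b c) j = coef (lRe g a b j) c := by
  have n1 : Int.neg b = -b := rfl
  rcases par3 j with rfl | ⟨t, rfl⟩ | ⟨t, rfl⟩
  · have e : ihr (cvR g a c) (cvI b c) 0 = cvR g a c (2 * ((0 : ℕ) : ℤ)) := rfl
    have e2 : lRe g a b 0 = [(0, g), (1, a)] := rfl
    rw [e, e2, cvR_nat]
    simp only [coef, zero_add, add_zero]
    rw [if_neg (show ¬ 0 = c + 1 by omega), add_zero]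
  · have e2 : lRe g a b (2 * t + 1) = [(t + 1, g), (t + 2, a), (t, a), (0, if t = 0 then a else 0)] := by
      have d1 : Nat.div (Nat.succ (2 * t + 1)) 2 = t + 1 := by
        show (2 * t + 1 + 1) / 2 = t + 1
        omega
      have d2 : Nat.mod (2 * t + 1) 2 = 1 := by
        show (2 * t + 1) % 2 = 1
        omega
      unfold lRe
      rw [beq_iff, beq_iff, beq_iff, d1, d2, decide_eq_false (show ¬ 2 * t + 1 = 0 by omega), decide_eq_true rfl,
        bif_ite]
      have e3 : (if 2 * t + 1 = 1 then a else 0) = if t = 0 then a else 0 := by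
        by_cases h : t = 0
        · rw [if_pos h, if_pos (by omega)]
        · rw [if_neg h, if_neg (by omega)]
      rw [e3]
      rfl
    rw [ihr_odd, e2, cvR_nat, cvR_neg]
    simp only [coef, add_zero, Nat.add_right_cancel_iff]
    rw [show t + 1 + 1 = t + 2 from rfl]
    ring
  · have e2 : lRe g a b (2 * t + 2) = [(t, b), (t + 2, -b), (0, if t = 0 then b else 0)] := by
      have d1 : Nat.div (2 * t + 2) 2 = t + 1 := by
        show (2 * t + 2) / 2 = t + 1
        omega
      have d2 : Nat.mod (2 * t + 2) 2 = 0 := by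
        show (2 * t + 2) % 2 = 0
        omega
      unfold lRe
      rw [beq_iff, beq_iff, beq_iff, beq_iff, d1, d2, decide_eq_false (show ¬ 2 * t + 2 = 0 by omega),
        decide_eq_false (show ¬ (0 : ℕ) = 1 by omega), bif_ite (2 * t + 2 = 2)]
      have e3 : (if 2 * t + 2 = 2 then b else 0) = if t = 0 then b else 0 := by
        by_cases h : t = 0
        · rw [if_pos h, if_pos (by omega)]
        · rw [if_neg h, if_neg (by omega)]
      rw [e3, n1]
      rfl
    rw [ihr_even, e2, cvI_nat, cvI_neg]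
    simp only [coef, add_zero, Nat.add_right_cancel_iff, ite_neg']
    rw [show t + 1 + 1 = t + 2 from rfl]
    ring

theorem lIm_eq (g a b : ℤ) (c j : ℕ) : ihr (fun m => -cvI b c m) (cvR g a c) j = coef (lIm g a b j) c := by
  have n1 : Int.neg b = -b := rfl
  have n2 : Int.neg a = -a := rfl
  rcases par3 j with rfl | ⟨t, rfl⟩ | ⟨t, rfl⟩
  · have e : ihr (fun m => -cvI b c m) (cvR g a c) 0 = -cvI b c (2 * ((0 : ℕ) : ℤ)) := rfl
    have e2 : lIm g a b 0 = [(1, b)] := rfl
    rw [e, e2, cvI_nat]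
    simp only [coef, zero_add, add_zero, ite_neg']
    rw [if_neg (show ¬ 0 = c + 1 by omega)]
    ring
  · have e2 : lIm g a b (2 * t + 1) = [(t, -b), (t + 2, b), (0, if t = 0 then b else 0)] := by
      have d1 : Nat.div (Nat.succ (2 * t + 1)) 2 = t + 1 := by
        show (2 * t + 1 + 1) / 2 = t + 1
        omega
      have d2 : Nat.mod (2 * t + 1) 2 = 1 := by
        show (2 * t + 1) % 2 = 1
        omega
      unfold lIm
      rw [beq_iff, beq_iff, beq_iff, d1, d2, decide_eq_false (show ¬ 2 * t + 1 = 0 by omega), decide_eq_true rfl,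
        bif_ite]
      have e3 : (if 2 * t + 1 = 1 then b else 0) = if t = 0 then b else 0 := by
        by_cases h : t = 0
        · rw [if_pos h, if_pos (by omega)]
        · rw [if_neg h, if_neg (by omega)]
      rw [e3, n1]
      rfl
    rw [ihr_odd, e2]
    rw [cvI_nat, cvI_neg]
    simp only [coef, add_zero, Nat.add_right_cancel_iff, ite_neg']
    rw [show t + 1 + 1 = t + 2 from rfl]
    ring
  · have e2 : lIm g a b (2 * t + 2) = [(t + 1, g), (t + 2, a), (t, a), (0, if t = 0 then -a else 0)] := by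
      have d1 : Nat.div (2 * t + 2) 2 = t + 1 := by
        show (2 * t + 2) / 2 = t + 1
        omega
      have d2 : Nat.mod (2 * t + 2) 2 = 0 := by
        show (2 * t + 2) % 2 = 0
        omega
      unfold lIm
      rw [beq_iff, beq_iff, beq_iff, beq_iff, d1, d2, decide_eq_false (show ¬ 2 * t + 2 = 0 by omega),
        decide_eq_false (show ¬ (0 : ℕ) = 1 by omega), bif_ite (2 * t + 2 = 2)]
      have e3 : (if 2 * t + 2 = 2 then Int.neg a else 0) = if t = 0 then -a else 0 := by
        by_cases h : t = 0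
        · rw [if_pos h, if_pos (by omega)]
          rfl
        · rw [if_neg h, if_neg (by omega)]
      rw [e3]
      rfl
    rw [ihr_even, e2, cvR_nat, cvR_neg]
    simp only [coef, add_zero, Nat.add_right_cancel_iff, ite_neg']
    rw [show t + 1 + 1 = t + 2 from rfl]
    ring

end Helper55.SH
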